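import Pool.Agent.Helper26K1.Het.Lyap

set_option autoImplicit false

open Complex Metric Module MeasureTheory
open scoped Manifold ContDiff Topology

namespace Pool.Agent.Helper26K1.Het

/-- the rotation curve through `z` -/
noncomputable def rot (z : ℂ) (t : ℝ) : ℂ := z * Complex.exp (t * I)

lemma rot_zero (z : ℂ) : rot z 0 = z := by simp [rot]

lemma hasDerivAt_rot (z : ℂ) : HasDerivAt (rot z) (z * I) 0 := by
  have h1 : HasDerivAt (fun t : ℝ => ((t : ℝ) : ℂ) * I) (1 * I) 0 :=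
    (Complex.ofRealCLM.hasDerivAt (x := (0:ℝ))).mul_const I
  have h2 := h1.cexp.const_mul z
  simp only [ofReal_zero, zero_mul, Complex.exp_zero, one_mul] at h2
  exact h2

lemma hasDerivAt_re {f : ℝ → ℂ} {f' : ℂ} {t : ℝ} (h : HasDerivAt f f' t) :
    HasDerivAt (fun t => (f t).re) f'.re t := by
  have := (Complex.reCLM.hasFDerivAt (x := f t)).comp_hasDerivAt t h
  exact this

lemma hasDerivAt_im {f : ℝ → ℂ} {f' : ℂ} {t : ℝ} (h : HasDerivAt f f' t) :
    HasDerivAt (fun t => (f t).im) f'.im t := by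
  have := (Complex.imCLM.hasFDerivAt (x := f t)).comp_hasDerivAt t h
  exact this

lemma hasDerivAt_ofReal' {f : ℝ → ℝ} {f' : ℝ} {t : ℝ} (h : HasDerivAt f f' t) :
    HasDerivAt (fun t => ((f t : ℝ) : ℂ)) (f' : ℂ) t := by
  have := (Complex.ofRealCLM.hasFDerivAt (x := f t)).comp_hasDerivAt t h
  exact this

/-- derivative of a Moebius step along a curve -/
lemma hasDerivAt_mobC {r : ℝ → ℝ} {u : ℝ → ℂ} {r' : ℝ} {u' : ℂ} (hr : HasDerivAt r r' 0)
    (hu : HasDerivAt u u' 0) (hne : 1 + (r 0 : ℂ) * u 0 ≠ 0) :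
    HasDerivAt (fun t => mobC (r t) (u t))
      ((u' * (1 - (r 0 : ℂ) ^ 2) + r' * (1 - u 0 ^ 2)) / (1 + (r 0 : ℂ) * u 0) ^ 2) 0 := by
  have h1 := hasDerivAt_ofReal' hr
  have h2 := (hu.add h1).div ((hasDerivAt_const (0:ℝ) (1:ℂ)).add (h1.mul hu)) hne
  refine h2.congr_deriv ?_
  simp only [Pi.add_apply, Pi.mul_apply]
  congr 1
  ring

lemma hasDerivAt_linC {u : ℝ → ℂ} {u' : ℂ} (hu : HasDerivAt u u' 0) (hne : u 0 ≠ 0)
    (horth : 121 / 100 * (u 0).re * u'.re + (u 0).im * u'.im = 0) :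
    HasDerivAt (fun t => linC (11/10) (u t))
      (stretch (11/10) u' / (‖stretch (11/10) (u 0)‖ : ℂ)) 0 := by
  have hre := hasDerivAt_re hu
  have him := hasDerivAt_im hu
  have hs : HasDerivAt (fun t => stretch (11/10) (u t)) (stretch (11/10) u') 0 := by
    unfold stretch
    exact (hasDerivAt_ofReal' (hre.const_mul (11/10))).add ((hasDerivAt_ofReal' him).mul_const I)
  have hpos : 0 < 121 / 100 * (u 0).re ^ 2 + (u 0).im ^ 2 := by
    by_contra hcon
    push Not at hcon
    have a := sq_nonneg (u 0).re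
    have b := sq_nonneg (u 0).im
    apply hne
    apply Complex.ext
    · simp only [Complex.zero_re]
      exact pow_eq_zero_iff two_ne_zero |>.1 (by linarith)
    · simp only [Complex.zero_im]
      exact pow_eq_zero_iff two_ne_zero |>.1 (by linarith)
  have hn : HasDerivAt (fun t => ‖stretch (11/10) (u t)‖) 0 0 := by
    have e : (fun t => ‖stretch (11/10) (u t)‖) =
        fun t => Real.sqrt (121 / 100 * (u t).re ^ 2 + (u t).im ^ 2) := by
      funext t; exact norm_stretch _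
    rw [e]
    have h3 := ((hre.pow 2).const_mul (121/100)).add (him.pow 2)
    have h4 := h3.sqrt hpos.ne'
    refine h4.congr_deriv ?_
    have : 121 / 100 * (((2:ℕ):ℝ) * (u 0).re ^ (2 - 1) * u'.re) +
        ((2:ℕ):ℝ) * (u 0).im ^ (2 - 1) * u'.im = 0 := by
      norm_num
      linarith
    rw [this, zero_div]
  have hn' := hasDerivAt_ofReal' hn
  have hne2 : ((‖stretch (11/10) (u 0)‖ : ℝ) : ℂ) ≠ 0 := by
    have := norm_ne_zero_iff.2 (stretch_ne (κ := 11/10) (by norm_num) hne)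
    exact_mod_cast this
  have h5 := hs.div hn' hne2
  refine h5.congr_deriv ?_
  simp only [ofReal_zero, mul_zero, sub_zero]
  field_simp

end Pool.Agent.Helper26K1.Het
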