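import Mathlib

/-!
# Lyapunov exponents of diffeomorphisms and the entropy of invariant measures

Definitions for the statement of `MP_794bd6_an`: Oseledets splittings at a point, the sum of the
positive exponents, and the Kolmogorov-Sinai entropy.
-/

set_option autoImplicit false

open Filter MeasureTheory
open scoped Manifold ContDiff Topology

namespace Pool.Agent.Helper26K1.Pesin

section Lyapunov

variable {E : Type*} [NormedAddCommGroup E] [NormedSpace ℝ E] {H : Type*} [TopologicalSpace H]
  (I : ModelWithCorners ℝ E H) {M : Type*} [TopologicalSpace M] [ChartedSpace H M]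

/-- The length of the tangent vector `v` at `x` with respect to the Riemannian metric `g`. -/
noncomputable def len (g : Bundle.RiemannianMetric (fun x : M => TangentSpace I x)) (x : M)
    (v : TangentSpace I x) : ℝ := Real.sqrt (g.inner x v v)

/-- An Oseledets splitting of the tangent space at `x` for the diffeomorphism `f`: the tangent space
is the direct sum of nonzero subspaces `V i` with distinct characteristic exponents `χ i`, that is,
`(1/n) log ‖T_x f^n u‖ → χ i` as `n → ∞` and as `n → -∞`, for all nonzero `u` in `V i`. -/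
structure Splitting {n : ℕ∞ω} (g : Bundle.RiemannianMetric (fun x : M => TangentSpace I x))
    (f : Diffeomorph I I M M n) (x : M) where
  /-- the number of distinct exponents -/
  k : ℕ
  /-- the subspaces -/
  V : Fin k → Submodule ℝ (TangentSpace I x)
  /-- the exponents -/
  χ : Fin k → ℝ
  injective : Function.Injective χ
  ne_bot : ∀ i, V i ≠ ⊥
  internal : DirectSum.IsInternal V
  forward : ∀ i, ∀ u ∈ V i, u ≠ 0 → Tendsto (fun m : ℕ =>
    (1 / (m : ℝ)) * Real.log (len I g (f^[m] x) (mfderiv I I f^[m] x u))) atTop (𝓝 (χ i))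
  backward : ∀ i, ∀ u ∈ V i, u ≠ 0 → Tendsto (fun m : ℕ =>
    (1 / (-(m : ℝ))) * Real.log (len I g (f.symm^[m] x) (mfderiv I I f.symm^[m] x u)))
    atTop (𝓝 (χ i))

/-- The sum of the positive exponents of a splitting, with multiplicities. -/
noncomputable def Splitting.sumPos {n : ℕ∞ω}
    {g : Bundle.RiemannianMetric (fun x : M => TangentSpace I x)} {f : Diffeomorph I I M M n}
    {x : M} (S : Splitting I g f x) : ℝ :=
  ∑ i, max (S.χ i) 0 * (Module.finrank ℝ (S.V i) : ℝ)

/-- `c` is the sum `χ₊(x)` of the positive characteristic exponents of `f` at `x`. -/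
def IsChiPlus {n : ℕ∞ω} (g : Bundle.RiemannianMetric (fun x : M => TangentSpace I x))
    (f : Diffeomorph I I M M n) (x : M) (c : ℝ) : Prop :=
  ∃ S : Splitting I g f x, S.sumPos = c

end Lyapunov

section Entropy

variable {X : Type*} [MeasurableSpace X]

/-- Shannon entropy of the partition of `X` into the level sets of `Q`. -/
noncomputable def partEntropy (ρ : Measure X) {ι : Type*} [Fintype ι] (Q : X → ι) : ℝ :=
  ∑ a, Real.negMulLog (ρ.real (Q ⁻¹' {a}))

/-- The code of the first `m` points of the orbit of `x`; its level sets are the partition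
`Q ∨ T⁻¹ Q ∨ … ∨ T^{-(m-1)} Q`. -/
def code {k : ℕ} (T : X → X) (Q : X → Fin k) (m : ℕ) (x : X) : Fin m → Fin k :=
  fun i => Q (T^[i] x)

/-- The entropy of `T` with respect to the partition `Q`. -/
noncomputable def entropyOf {k : ℕ} (ρ : Measure X) (T : X → X) (Q : X → Fin k) : EReal :=
  limsup (fun m : ℕ => (((1 / (m : ℝ)) * partEntropy ρ (code T Q m) : ℝ) : EReal)) atTop

/-- The Kolmogorov-Sinai entropy of `T` with respect to `ρ`: the supremum of the entropies with
respect to finite measurable partitions. -/
noncomputable def ksEntropy (ρ : Measure X) (T : X → X) : EReal :=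
  ⨆ (k : ℕ) (Q : X → Fin k) (_ : Measurable Q), entropyOf ρ T Q

end Entropy

section Gap

variable {E : Type*} [NormedAddCommGroup E] [NormedSpace ℝ E] {H : Type*} [TopologicalSpace H]
  {I : ModelWithCorners ℝ E H} {M : Type*} [TopologicalSpace M] [ChartedSpace H M]
  [MeasurableSpace M]

/-- For the invariant measure `ρ` the Oseledets splitting exists almost everywhere, and whenever
`χ₊(x)` is the sum of the positive exponents at almost every `x`, then `χ₊` is integrable and
`h(ρ) + c ≤ ∫ χ₊ dρ`. -/
def GapAt {n : ℕ∞ω} (g : Bundle.RiemannianMetric (fun x : M => TangentSpace I x))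
    (f : Diffeomorph I I M M n) (ρ : Measure M) (c : ℝ) : Prop :=
  (∀ᵐ x ∂ρ, ∃ a : ℝ, IsChiPlus I g f x a) ∧
    ∀ χ : M → ℝ, (∀ᵐ x ∂ρ, IsChiPlus I g f x (χ x)) →
      Integrable χ ρ ∧ ksEntropy ρ f + (c : EReal) ≤ ((∫ x, χ x ∂ρ : ℝ) : EReal)

/-- `h(ρ) + c ≤ ∫ χ₊ dρ` for every invariant probability measure `ρ` of `f` (and for every
Riemannian metric used to measure the growth of tangent vectors). -/
def EntropyGap {n : ℕ∞ω} (f : Diffeomorph I I M M n) (c : ℝ) : Prop :=
  ∀ (g : Bundle.RiemannianMetric (fun x : M => TangentSpace I x)) (ρ : Measure M),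
    IsProbabilityMeasure ρ → MeasurePreserving f ρ ρ → GapAt g f ρ c

end Gap

end Pool.Agent.Helper26K1.Pesin
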