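import Pool.Agent.Helper26K1.Het.Tangent

set_option autoImplicit false

open Complex Metric Module MeasureTheory
open scoped Manifold ContDiff Topology

namespace Pool.Agent.Helper26K1.Het

attribute [local instance] finrank_real_complex_fact'

/-- A fixed point of saddle kind: both coordinates are real. -/
def IsSad (p : Circle × Circle) : Prop := (p.1 : ℂ).im = 0 ∧ (p.2 : ℂ).im = 0

/-- A fixed point in the middle of a cell: both coordinates are imaginary. -/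
def IsCen (p : Circle × Circle) : Prop := (p.1 : ℂ).re = 0 ∧ (p.2 : ℂ).re = 0

lemma rot_hasDerivAt (z : ℂ) (a : ℝ) :
    HasDerivAt (fun t : ℝ => rot z (t * a)) (z * I * a) 0 := by
  have h4 : HasDerivAt (rot z) (z * I) ((0:ℝ) * a) := by
    rw [zero_mul]; exact hasDerivAt_rot z
  have h5 := HasDerivAt.scomp (0:ℝ) h4 ((hasDerivAt_id (0:ℝ)).mul_const a)
  refine h5.congr_deriv ?_
  rw [one_mul, Complex.real_smul, mul_comm]

lemma curveA (p : Circle × Circle) (x : ℝ × ℝ) :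
    HasDerivAt (fun t : ℝ => incl (fA (wrap p (t • x))))
      (((p.1 : ℂ) * I * x.1 * (1 - ((-(p.2 : ℂ).re / 10 : ℝ) : ℂ) ^ 2) +
        (((p.2 : ℂ).im * x.2 / 10 : ℝ) : ℂ) * (1 - (p.1 : ℂ) ^ 2)) /
        (1 + ((-(p.2 : ℂ).re / 10 : ℝ) : ℂ) * (p.1 : ℂ)) ^ 2, (p.2 : ℂ) * I * x.2) 0 := by
  have e : (fun t : ℝ => incl (fA (wrap p (t • x)))) = fun t : ℝ =>
      (mobC (-(rot p.2 (t * x.2)).re / 10) (rot p.1 (t * x.1)), rot p.2 (t * x.2)) := by
    funext t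
    simp only [incl, wrap, fA, mob, Circle.coe_mul, Circle.coe_exp, rot, Prod.smul_fst,
      Prod.smul_snd, smul_eq_mul]
  rw [e]
  refine HasDerivAt.prodMk ?_ (rot_hasDerivAt _ _)
  have hr : HasDerivAt (fun t : ℝ => -(rot (p.2 : ℂ) (t * x.2)).re / 10)
      ((p.2 : ℂ).im * x.2 / 10) 0 := by
    have h1 := (hasDerivAt_re (rot_hasDerivAt (p.2 : ℂ) x.2)).neg.div_const 10
    refine h1.congr_deriv ?_
    simp
  have h0 : rot (p.2 : ℂ) ((0:ℝ) * x.2) = p.2 := by rw [zero_mul, rot_zero]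
  have h0' : rot (p.1 : ℂ) ((0:ℝ) * x.1) = p.1 := by rw [zero_mul, rot_zero]
  have h2 := hasDerivAt_mobC hr (rot_hasDerivAt (p.1 : ℂ) x.1) (by
    rw [h0, h0']
    exact one_add_ne (rA p.2) p.1.norm_coe)
  rw [h0, h0'] at h2
  exact h2

lemma curveB (p : Circle × Circle) (x : ℝ × ℝ) :
    HasDerivAt (fun t : ℝ => incl (fB (wrap p (t • x))))
      ((p.1 : ℂ) * I * x.1,
        ((p.2 : ℂ) * I * x.2 * (1 - (((p.1 : ℂ).re / 10 : ℝ) : ℂ) ^ 2) +
        ((-(p.1 : ℂ).im * x.1 / 10 : ℝ) : ℂ) * (1 - (p.2 : ℂ) ^ 2)) /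
        (1 + (((p.1 : ℂ).re / 10 : ℝ) : ℂ) * (p.2 : ℂ)) ^ 2) 0 := by
  have e : (fun t : ℝ => incl (fB (wrap p (t • x)))) = fun t : ℝ =>
      (rot p.1 (t * x.1), mobC ((rot p.1 (t * x.1)).re / 10) (rot p.2 (t * x.2))) := by
    funext t
    simp only [incl, wrap, fB, mob, Circle.coe_mul, Circle.coe_exp, rot, Prod.smul_fst,
      Prod.smul_snd, smul_eq_mul]
  rw [e]
  refine HasDerivAt.prodMk (rot_hasDerivAt _ _) ?_
  have hr : HasDerivAt (fun t : ℝ => (rot (p.1 : ℂ) (t * x.1)).re / 10)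
      (-(p.1 : ℂ).im * x.1 / 10) 0 := by
    have h1 := (hasDerivAt_re (rot_hasDerivAt (p.1 : ℂ) x.1)).div_const 10
    refine h1.congr_deriv ?_
    simp
  have h0 : rot (p.2 : ℂ) ((0:ℝ) * x.2) = p.2 := by rw [zero_mul, rot_zero]
  have h0' : rot (p.1 : ℂ) ((0:ℝ) * x.1) = p.1 := by rw [zero_mul, rot_zero]
  have h2 := hasDerivAt_mobC hr (rot_hasDerivAt (p.2 : ℂ) x.2) (by
    rw [h0, h0']
    exact one_add_ne (rA' p.1) p.2.norm_coe)
  rw [h0, h0'] at h2
  exact h2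

lemma curveC (p : Circle × Circle) (x : ℝ × ℝ) (h : (p.2 : ℂ).re * (p.2 : ℂ).im = 0) :
    HasDerivAt (fun t : ℝ => incl (fC (wrap p (t • x))))
      ((p.1 : ℂ) * I * x.1,
        stretch (11/10) ((p.2 : ℂ) * I * x.2) / (‖stretch (11/10) (p.2 : ℂ)‖ : ℂ)) 0 := by
  have e : (fun t : ℝ => incl (fC (wrap p (t • x)))) = fun t : ℝ =>
      (rot p.1 (t * x.1), linC (11/10) (rot p.2 (t * x.2))) := by
    funext t
    simp only [incl, wrap, fC, lin, Circle.coe_mul, Circle.coe_exp, rot, Prod.smul_fst,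
      Prod.smul_snd, smul_eq_mul]
  rw [e]
  refine HasDerivAt.prodMk (rot_hasDerivAt _ _) ?_
  have h0 : rot (p.2 : ℂ) ((0:ℝ) * x.2) = p.2 := by rw [zero_mul, rot_zero]
  have h2 := hasDerivAt_linC (rot_hasDerivAt (p.2 : ℂ) x.2) (by rw [h0]; exact p.2.coe_ne_zero)
    (by
      rw [h0]
      simp only [mul_re, mul_im, I_re, I_im, ofReal_re, ofReal_im, mul_zero, mul_one, zero_sub,
        add_zero, sub_zero, zero_add]
      linear_combination (x.2 - 121/100 * x.2) * h)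
  rw [h0] at h2
  exact h2

/-- sign of a real point -/
lemma sad_vals {p : Circle × Circle} (h : IsSad p) : (p.1 : ℂ) = ((p.1 : ℂ).re : ℂ) ∧
    (p.2 : ℂ) = ((p.2 : ℂ).re : ℂ) ∧ (p.1 : ℂ).re ^ 2 = 1 ∧ (p.2 : ℂ).re ^ 2 = 1 := by
  refine ⟨Complex.ext rfl (by simp [h.1]), Complex.ext rfl (by simp [h.2]), ?_, ?_⟩
  · have := circ_sq p.1; rw [h.1] at this; linarith
  · have := circ_sq p.2; rw [h.2] at this; linarith

lemma cen_vals {p : Circle × Circle} (h : IsCen p) : (p.1 : ℂ) = ((p.1 : ℂ).im : ℂ) * I ∧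
    (p.2 : ℂ) = ((p.2 : ℂ).im : ℂ) * I ∧ (p.1 : ℂ).im ^ 2 = 1 ∧ (p.2 : ℂ).im ^ 2 = 1 := by
  refine ⟨Complex.ext (by simp [h.1]) (by simp), Complex.ext (by simp [h.2]) (by simp), ?_, ?_⟩
  · have := circ_sq p.1; rw [h.1] at this; linarith
  · have := circ_sq p.2; rw [h.2] at this; linarith

lemma mobC_real {r σ : ℝ} (hσ : σ ^ 2 = 1) (hne : (1 : ℂ) + r * (σ : ℂ) ≠ 0) :
    mobC r (σ : ℂ) = σ := by
  rw [mobC, div_eq_iff hne]
  have : (σ : ℂ) ^ 2 = 1 := by exact_mod_cast hσ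
  linear_combination (-(r : ℂ)) * this

lemma fA_sad {p : Circle × Circle} (h : IsSad p) : fA p = p := by
  obtain ⟨h1, -, h2, -⟩ := sad_vals h
  ext1
  · apply Circle.ext
    change mobC _ _ = _
    have hne := one_add_ne (rA p.2) p.1.norm_coe
    rw [h1] at hne ⊢
    exact mobC_real h2 hne
  · rfl

lemma fB_sad {p : Circle × Circle} (h : IsSad p) : fB p = p := by
  obtain ⟨-, h1, -, h2⟩ := sad_vals h
  ext1
  · rfl
  · apply Circle.ext
    change mobC _ _ = _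
    have hne := one_add_ne (rA' p.1) p.2.norm_coe
    rw [h1] at hne ⊢
    exact mobC_real h2 hne

lemma norm_stretch_sad {p : Circle × Circle} (h : IsSad p) :
    ‖stretch (11/10) (p.2 : ℂ)‖ = 11 / 10 := by
  obtain ⟨-, -, -, h2⟩ := sad_vals h
  rw [norm_stretch, h.2, h2, show (121 : ℝ) / 100 * 1 + 0 ^ 2 = (11 / 10) ^ 2 by norm_num]
  exact Real.sqrt_sq (by norm_num)

lemma norm_stretch_cen {p : Circle × Circle} (h : IsCen p) :
    ‖stretch (11/10) (p.2 : ℂ)‖ = 1 := by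
  obtain ⟨-, -, -, h2⟩ := cen_vals h
  rw [norm_stretch, h.2, h2, show (121 : ℝ) / 100 * 0 ^ 2 + 1 = 1 by norm_num, Real.sqrt_one]

lemma fC_sad {p : Circle × Circle} (h : IsSad p) : fC p = p := by
  ext1
  · rfl
  · apply Circle.ext
    change linC _ _ = _
    rw [linC, norm_stretch_sad h, stretch, h.2]
    apply Complex.ext
    · simp only [add_re, mul_re, ofReal_re, ofReal_im, I_re, I_im, div_ofReal_re]
      field_simp
      ring
    · simp only [add_im, mul_im, ofReal_re, ofReal_im, I_re, I_im, div_ofReal_im, h.2]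
      simp

lemma mobC_zero (z : ℂ) : mobC 0 z = z := by simp [mobC]

lemma fA_cen {p : Circle × Circle} (h : IsCen p) : fA p = p := by
  ext1
  · apply Circle.ext
    change mobC (-(p.2 : ℂ).re / 10) _ = _
    rw [h.2, neg_zero, zero_div, mobC_zero]
  · rfl

lemma fB_cen {p : Circle × Circle} (h : IsCen p) : fB p = p := by
  ext1
  · rfl
  · apply Circle.ext
    change mobC ((p.1 : ℂ).re / 10) _ = _
    rw [h.1, zero_div, mobC_zero]

lemma fC_cen {p : Circle × Circle} (h : IsCen p) : fC p = p := by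
  ext1
  · rfl
  · apply Circle.ext
    change linC _ _ = _
    rw [linC, norm_stretch_cen h, stretch, h.2]
    apply Complex.ext
    · simp [h.2]
    · simp

/-- the sign of the cell -/
noncomputable def sgS (p : Circle × Circle) : ℝ := (p.1 : ℂ).re * (p.2 : ℂ).re
noncomputable def sgC (p : Circle × Circle) : ℝ := (p.1 : ℂ).im * (p.2 : ℂ).im

lemma DA_sad {p : Circle × Circle} (h : IsSad p) (x : ℝ × ℝ) :
    D fA p (P p x) = P p ((99/100) / (1 - sgS p / 10) ^ 2 * x.1, x.2) := by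
  obtain ⟨h1, h2, h3, h4⟩ := sad_vals h
  apply D_P smooth_fA p (fA_sad h)
  refine (curveA p x).congr_deriv ?_
  ext1
  · change _ = (p.1 : ℂ) * I * (((99/100) / (1 - sgS p / 10) ^ 2 * x.1 : ℝ) : ℂ)
    rw [h.2]
    simp only [zero_mul, zero_div, ofReal_zero, add_zero]
    have e1 : ((-(p.2 : ℂ).re / 10 : ℝ) : ℂ) ^ 2 = 1 / 100 := by
      rw [← ofReal_pow, show (-(p.2 : ℂ).re / 10) ^ 2 = (p.2 : ℂ).re ^ 2 / 100 by ring, h4]
      push_cast; ring
    have e2 : 1 + ((-(p.2 : ℂ).re / 10 : ℝ) : ℂ) * (p.1 : ℂ) = ((1 - sgS p / 10 : ℝ) : ℂ) := by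
      rw [h1, sgS, ← ofReal_mul, ← ofReal_one, ← ofReal_add]
      congr 1
      ring
    rw [e1, e2]
    push_cast
    ring
  · rfl

lemma DB_sad {p : Circle × Circle} (h : IsSad p) (x : ℝ × ℝ) :
    D fB p (P p x) = P p (x.1, (99/100) / (1 + sgS p / 10) ^ 2 * x.2) := by
  obtain ⟨h1, h2, h3, h4⟩ := sad_vals h
  apply D_P smooth_fB p (fB_sad h)
  refine (curveB p x).congr_deriv ?_
  ext1
  · rfl
  · change _ = (p.2 : ℂ) * I * (((99/100) / (1 + sgS p / 10) ^ 2 * x.2 : ℝ) : ℂ)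
    rw [h.1]
    simp only [neg_zero, zero_mul, zero_div, ofReal_zero, add_zero]
    have e1 : (((p.1 : ℂ).re / 10 : ℝ) : ℂ) ^ 2 = 1 / 100 := by
      rw [← ofReal_pow, show ((p.1 : ℂ).re / 10) ^ 2 = (p.1 : ℂ).re ^ 2 / 100 by ring, h3]
      push_cast; ring
    have e2 : 1 + (((p.1 : ℂ).re / 10 : ℝ) : ℂ) * (p.2 : ℂ) = ((1 + sgS p / 10 : ℝ) : ℂ) := by
      rw [h2, sgS, ← ofReal_mul, ← ofReal_one, ← ofReal_add]
      congr 1
      ring
    rw [e1, e2]
    push_cast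
    ring

lemma DC_sad {p : Circle × Circle} (h : IsSad p) (x : ℝ × ℝ) :
    D fC p (P p x) = P p (x.1, 10 / 11 * x.2) := by
  obtain ⟨h1, h2, h3, h4⟩ := sad_vals h
  apply D_P smooth_fC p (fC_sad h)
  refine (curveC p x (by rw [h.2, mul_zero])).congr_deriv ?_
  ext1
  · rfl
  · change _ = (p.2 : ℂ) * I * ((10 / 11 * x.2 : ℝ) : ℂ)
    rw [norm_stretch_sad h]
    apply Complex.ext
    · rw [div_ofReal_re]
      simp [stretch, h.2]
    · rw [div_ofReal_im]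
      simp [stretch, h.2]
      ring

lemma DA_cen {p : Circle × Circle} (h : IsCen p) (x : ℝ × ℝ) :
    D fA p (P p x) = P p (x.1 - sgC p / 5 * x.2, x.2) := by
  obtain ⟨h1, h2, h3, h4⟩ := cen_vals h
  apply D_P smooth_fA p (fA_cen h)
  refine (curveA p x).congr_deriv ?_
  ext1
  · change _ = (p.1 : ℂ) * I * ((x.1 - sgC p / 5 * x.2 : ℝ) : ℂ)
    rw [h.2]
    have e1 : (p.1 : ℂ) ^ 2 = -1 := by
      rw [h1, mul_pow, I_sq, ← ofReal_pow, h3]; simp
    rw [e1]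
    have e2 : ((p.1 : ℂ).im : ℂ) ^ 2 = 1 := by exact_mod_cast h3
    have e3 : (p.1 : ℂ) * I = -((p.1 : ℂ).im : ℂ) := by
      rw [h1, mul_assoc, I_mul_I]; simp
    rw [e3, sgC]
    push_cast
    simp only [neg_zero, zero_div, zero_mul, add_zero]
    field_simp
    linear_combination (-(10 : ℂ) * ((p.2 : ℂ).im : ℂ) * x.2) * e2
  · rfl

lemma DB_cen {p : Circle × Circle} (h : IsCen p) (x : ℝ × ℝ) :
    D fB p (P p x) = P p (x.1, x.2 + sgC p / 5 * x.1) := by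
  obtain ⟨h1, h2, h3, h4⟩ := cen_vals h
  apply D_P smooth_fB p (fB_cen h)
  refine (curveB p x).congr_deriv ?_
  ext1
  · rfl
  · change _ = (p.2 : ℂ) * I * ((x.2 + sgC p / 5 * x.1 : ℝ) : ℂ)
    rw [h.1]
    have e1 : (p.2 : ℂ) ^ 2 = -1 := by
      rw [h2, mul_pow, I_sq, ← ofReal_pow, h4]; simp
    rw [e1]
    have e2 : ((p.2 : ℂ).im : ℂ) ^ 2 = 1 := by exact_mod_cast h4
    have e3 : (p.2 : ℂ) * I = -((p.2 : ℂ).im : ℂ) := by
      rw [h2, mul_assoc, I_mul_I]; simp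
    rw [e3, sgC]
    push_cast
    simp only [zero_div, zero_mul, add_zero]
    field_simp
    linear_combination ((10 : ℂ) * ((p.1 : ℂ).im : ℂ) * x.1) * e2

lemma DC_cen {p : Circle × Circle} (h : IsCen p) (x : ℝ × ℝ) :
    D fC p (P p x) = P p (x.1, 11 / 10 * x.2) := by
  obtain ⟨h1, h2, h3, h4⟩ := cen_vals h
  apply D_P smooth_fC p (fC_cen h)
  refine (curveC p x (by rw [h.2, zero_mul])).congr_deriv ?_
  ext1
  · rfl
  · change _ = (p.2 : ℂ) * I * ((11 / 10 * x.2 : ℝ) : ℂ)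
    rw [norm_stretch_cen h]
    apply Complex.ext
    · simp [stretch, h.2]
      ring
    · simp [stretch, h.2]

end Pool.Agent.Helper26K1.Het
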