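import Pool.Agent.Helper26K1.Het.Defs

set_option autoImplicit false

open Filter MeasureTheory
open scoped Topology

namespace Pool.Agent.Helper26K1.Pesin

variable {X : Type*} [MeasurableSpace X]

lemma negMulLog_le_one {p : ℝ} (h0 : 0 ≤ p) : Real.negMulLog p ≤ 1 := by
  rcases h0.eq_or_lt with h | h
  · rw [← h]; simp
  · have h1 := Real.log_le_sub_one_of_pos (inv_pos.2 h)
    rw [Real.log_inv] at h1
    rw [Real.negMulLog]
    have h2 : p * (-Real.log p) ≤ p * (p⁻¹ - 1) := mul_le_mul_of_nonneg_left h1 h.le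
    have h3 : p * (p⁻¹ - 1) = 1 - p := by field_simp
    linarith

lemma partEntropy_nonneg (ρ : Measure X) [IsProbabilityMeasure ρ] {ι : Type*} [Fintype ι]
    (Q : X → ι) : 0 ≤ partEntropy ρ Q :=
  Finset.sum_nonneg fun _ _ => Real.negMulLog_nonneg measureReal_nonneg measureReal_le_one

lemma partEntropy_le (ρ : Measure X) [IsProbabilityMeasure ρ] {T : X → X} {K : Set X}
    (hK : K.Finite) (hfix : ∀ x ∈ K, T x = x) (hρ : ∀ᵐ x ∂ρ, x ∈ K) {k : ℕ} (Q : X → Fin k)
    (m : ℕ) : partEntropy ρ (code T Q m) ≤ hK.toFinset.card := by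
  classical
  set A : Finset (Fin m → Fin k) := hK.toFinset.image (fun x => (fun _ => Q x)) with hA
  have hzero : ∀ a, a ∉ A → Real.negMulLog (ρ.real (code T Q m ⁻¹' {a})) = 0 := by
    intro a ha
    have h0 : ρ (code T Q m ⁻¹' {a}) = 0 := by
      apply measure_mono_null _ (ae_iff.1 hρ)
      intro x hx
      simp only [Set.mem_setOf_eq]
      intro hxK
      apply ha
      rw [hA, Finset.mem_image]
      refine ⟨x, hK.mem_toFinset.2 hxK, ?_⟩
      have hx' : code T Q m x = a := hx
      rw [← hx']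
      funext i
      rw [code, Function.iterate_fixed (hfix x hxK)]
    rw [measureReal_def, h0]
    simp
  rw [partEntropy, ← Finset.sum_subset (Finset.subset_univ A) (fun a _ ha => hzero a ha)]
  calc ∑ a ∈ A, Real.negMulLog (ρ.real (code T Q m ⁻¹' {a})) ≤ ∑ _a ∈ A, (1 : ℝ) :=
        Finset.sum_le_sum fun a _ => negMulLog_le_one measureReal_nonneg
    _ = A.card := by simp
    _ ≤ hK.toFinset.card := by exact_mod_cast Finset.card_image_le

lemma entropyOf_eq_zero (ρ : Measure X) [IsProbabilityMeasure ρ] {T : X → X} {K : Set X}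
    (hK : K.Finite) (hfix : ∀ x ∈ K, T x = x) (hρ : ∀ᵐ x ∂ρ, x ∈ K) {k : ℕ} (Q : X → Fin k) :
    entropyOf ρ T Q = 0 := by
  have h : Tendsto (fun m : ℕ => (1 / (m : ℝ)) * partEntropy ρ (code T Q m)) atTop (𝓝 0) := by
    have h1 : Tendsto (fun m : ℕ => (1 / (m : ℝ)) * (hK.toFinset.card : ℝ)) atTop (𝓝 0) := by
      have := (tendsto_one_div_atTop_nhds_zero_nat (𝕜 := ℝ)).mul_const (hK.toFinset.card : ℝ)
      rwa [zero_mul] at this
    refine squeeze_zero (fun m => ?_) (fun m => ?_) h1
    · exact mul_nonneg (by positivity) (partEntropy_nonneg ρ _)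
    · exact mul_le_mul_of_nonneg_left (partEntropy_le ρ hK hfix hρ Q m) (by positivity)
  have h2 := (continuous_coe_real_ereal.tendsto (0:ℝ)).comp h
  exact h2.limsup_eq

/-- Measures carried by finitely many fixed points have zero entropy. -/
lemma ksEntropy_eq_zero (ρ : Measure X) [IsProbabilityMeasure ρ] {T : X → X} {K : Set X}
    (hK : K.Finite) (hfix : ∀ x ∈ K, T x = x) (hρ : ∀ᵐ x ∂ρ, x ∈ K) : ksEntropy ρ T = 0 := by
  apply le_antisymm
  · refine iSup_le fun k => iSup_le fun Q => iSup_le fun _ => ?_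
    exact (entropyOf_eq_zero ρ hK hfix hρ Q).le
  · have h := entropyOf_eq_zero ρ hK hfix hρ (fun _ : X => (0 : Fin 1))
    calc (0 : EReal) = entropyOf ρ T (fun _ : X => (0 : Fin 1)) := h.symm
      _ ≤ ksEntropy ρ T :=
        le_iSup_of_le 1 (le_iSup_of_le (fun _ : X => (0 : Fin 1))
          (le_iSup_of_le measurable_const le_rfl))

/-- A function which decreases along the orbits is constant along almost every orbit. -/
lemma ae_eq_of_le (ρ : Measure X) [IsProbabilityMeasure ρ] {T : X → X}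
    (hT : MeasurePreserving T ρ ρ) {u : X → ℝ} (hu : Measurable u) {C : ℝ} (hC : ∀ x, |u x| ≤ C)
    (h : ∀ x, u (T x) ≤ u x) : ∀ᵐ x ∂ρ, u (T x) = u x := by
  have hi : Integrable u ρ :=
    Integrable.of_bound hu.aestronglyMeasurable C (ae_of_all _ fun x => by
      rw [Real.norm_eq_abs]; exact hC x)
  have hi2 : Integrable (fun x => u (T x)) ρ := hT.integrable_comp_of_integrable hi
  have h1 : ∫ x, (u x - u (T x)) ∂ρ = 0 := by
    rw [integral_sub hi hi2]
    have h2 : ∫ x, u (T x) ∂ρ = ∫ x, u x ∂ρ := by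
      have h3 := integral_map (μ := ρ) (φ := T) hT.measurable.aemeasurable
        (f := u) (by rw [hT.map_eq]; exact hu.aestronglyMeasurable)
      rw [hT.map_eq] at h3
      exact h3.symm
    rw [h2, sub_self]
  have h4 := (integral_eq_zero_iff_of_nonneg (fun x => sub_nonneg.2 (h x)) (hi.sub hi2)).1 h1
  filter_upwards [h4] with x hx
  simp only [Pi.zero_apply] at hx
  linarith

end Pool.Agent.Helper26K1.Pesin
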