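import Pool.Agent.Helper26K1.Het.Supp

set_option autoImplicit false

open Filter MeasureTheory
open scoped Manifold ContDiff Topology

namespace Pool.Agent.Helper26K1.Pesin

variable {E : Type*} [NormedAddCommGroup E] [NormedSpace ℝ E] {H : Type*} [TopologicalSpace H]
  {I : ModelWithCorners ℝ E H} {M : Type*} [TopologicalSpace M] [ChartedSpace H M]

section len

variable (g : Bundle.RiemannianMetric (fun x : M => TangentSpace I x)) (x : M)

lemma inner_self_nonneg' (v : TangentSpace I x) : 0 ≤ g.inner x v v := by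
  by_cases h : v = 0
  · rw [h]; simp
  · exact (g.pos x v h).le

lemma len_nonneg (v : TangentSpace I x) : 0 ≤ len I g x v := Real.sqrt_nonneg _

lemma len_zero : len I g x 0 = 0 := by simp [len]

lemma len_pos {v : TangentSpace I x} (h : v ≠ 0) : 0 < len I g x v :=
  Real.sqrt_pos.2 (g.pos x v h)

lemma len_smul (c : ℝ) (v : TangentSpace I x) : len I g x (c • v) = |c| * len I g x v := by
  have h : g.inner x (c • v) (c • v) = c * c * g.inner x v v := by
    simp only [map_smul, _root_.smul_apply, smul_eq_mul]
    ring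
  rw [len, len, h, Real.sqrt_mul (mul_self_nonneg c), Real.sqrt_mul_self_eq_abs]

lemma cauchy (v w : TangentSpace I x) :
    (g.inner x v w) ^ 2 ≤ g.inner x v v * g.inner x w w := by
  have h : ∀ t : ℝ, 0 ≤ g.inner x w w * (t * t) + (2 * g.inner x v w) * t + g.inner x v v := by
    intro t
    have h1 := inner_self_nonneg' g x (v + t • w)
    have h2 : g.inner x (v + t • w) (v + t • w) =
        g.inner x w w * (t * t) + (2 * g.inner x v w) * t + g.inner x v v := by
      simp only [map_add, map_smul, _root_.add_apply, _root_.smul_apply,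
        smul_eq_mul]
      rw [g.symm x w v]
      ring
    rw [h2] at h1
    exact h1
  have h3 := discrim_le_zero h
  rw [discrim] at h3
  nlinarith

lemma len_add_le (v w : TangentSpace I x) :
    len I g x (v + w) ≤ len I g x v + len I g x w := by
  have a := inner_self_nonneg' g x v
  have c := inner_self_nonneg' g x w
  have h1 : g.inner x (v + w) (v + w) = g.inner x v v + 2 * g.inner x v w + g.inner x w w := by
    simp only [map_add, _root_.add_apply]
    rw [g.symm x w v]
    ring
  have h2 : g.inner x v w ≤ Real.sqrt (g.inner x v v) * Real.sqrt (g.inner x w w) := by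
    rw [← Real.sqrt_mul a]
    exact Real.le_sqrt_of_sq_le (cauchy g x v w)
  rw [len, h1]
  apply Real.sqrt_le_iff.2
  refine ⟨add_nonneg (len_nonneg g x v) (len_nonneg g x w), ?_⟩
  have e1 : len I g x v ^ 2 = g.inner x v v := Real.sq_sqrt a
  have e2 : len I g x w ^ 2 = g.inner x w w := Real.sq_sqrt c
  have e3 : (len I g x v + len I g x w) ^ 2 = len I g x v ^ 2 + 2 * (len I g x v * len I g x w) +
    len I g x w ^ 2 := by ring
  rw [e3, e1, e2]
  have e4 : len I g x v * len I g x w =
    Real.sqrt (g.inner x v v) * Real.sqrt (g.inner x w w) := rfl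
  rw [e4]
  linarith

lemma len_sum_le {ι : Type*} (s : Finset ι) (v : ι → TangentSpace I x) :
    len I g x (∑ i ∈ s, v i) ≤ ∑ i ∈ s, len I g x (v i) := by
  classical
  induction s using Finset.induction_on with
  | empty => simp [len_zero]
  | insert a s ha ih =>
    rw [Finset.sum_insert ha, Finset.sum_insert ha]
    exact (len_add_le g x _ _).trans (by linarith)

end len

/-- The sum of the positive exponents is at least the growth rate of any vector. -/
lemma le_sumPos {n : ℕ∞ω} {g : Bundle.RiemannianMetric (fun x : M => TangentSpace I x)}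
    {f : Diffeomorph I I M M n} {x : M} [FiniteDimensional ℝ E] (S : Splitting I g f x)
    {u : TangentSpace I x} {l : ℝ}
    (hpos : ∀ m : ℕ, 0 < len I g (f^[m] x) (mfderiv I I f^[m] x u))
    (h : Tendsto (fun m : ℕ =>
      (1 / (m : ℝ)) * Real.log (len I g (f^[m] x) (mfderiv I I f^[m] x u))) atTop (𝓝 l)) :
    l ≤ S.sumPos := by
  have hfd : FiniteDimensional ℝ (TangentSpace I x) :=
    inferInstanceAs (FiniteDimensional ℝ E)
  by_contra hcon
  push Not at hcon
  set L := S.sumPos with hL
  have hterm : ∀ i, 0 ≤ max (S.χ i) 0 * (Module.finrank ℝ (S.V i) : ℝ) := fun i => by positivity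
  have hχ : ∀ i, S.χ i ≤ L := by
    intro i
    have h1 : max (S.χ i) 0 * (Module.finrank ℝ (S.V i) : ℝ) ≤ L := by
      rw [hL, Splitting.sumPos]
      exact Finset.single_le_sum (f := fun i => max (S.χ i) 0 * (Module.finrank ℝ (S.V i) : ℝ))
        (fun j _ => hterm j) (Finset.mem_univ i)
    have h2 : (1 : ℝ) ≤ (Module.finrank ℝ (S.V i) : ℝ) := by
      have : 0 < Module.finrank ℝ (S.V i) := by
        have := S.ne_bot i
        rw [Module.finrank_pos_iff]
        exact Submodule.nontrivial_iff_ne_bot.2 this
      exact_mod_cast this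
    have h3 : max (S.χ i) 0 ≤ max (S.χ i) 0 * (Module.finrank ℝ (S.V i) : ℝ) :=
      le_mul_of_one_le_right (le_max_right _ _) h2
    exact (le_max_left _ _).trans (h3.trans h1)
  -- decompose `u`
  have htop : ⨆ i, S.V i = ⊤ := S.internal.submodule_iSup_eq_top
  have hu : u ∈ ⨆ i, S.V i := by rw [htop]; trivial
  obtain ⟨w, hw, hwu⟩ := (Submodule.mem_iSup_iff_exists_finsupp _ _).1 hu
  set ε := (l - L) / 4 with hε
  have hεpos : 0 < ε := by rw [hε]; linarith
  have hev : ∀ i, ∀ᶠ m : ℕ in atTop, len I g (f^[m] x) (mfderiv I I f^[m] x (w i)) ≤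
      Real.exp (m * (L + ε)) := by
    intro i
    by_cases hwi : w i = 0
    · refine Eventually.of_forall fun m => ?_
      rw [hwi, map_zero, len_zero]
      exact (Real.exp_pos _).le
    · have ht := S.forward i (w i) (hw i) hwi
      have h1 : S.χ i < L + ε := by have := hχ i; linarith
      have h2 := ht.eventually (gt_mem_nhds h1)
      filter_upwards [h2, eventually_gt_atTop 0] with m hm hm0
      have hm0' : (0 : ℝ) < m := by exact_mod_cast hm0
      have h3 : Real.log (len I g (f^[m] x) (mfderiv I I f^[m] x (w i))) < m * (L + ε) := by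
        rw [one_div, inv_mul_lt_iff₀ hm0'] at hm
        exact hm
      rcases (len_nonneg g (f^[m] x) (mfderiv I I f^[m] x (w i))).eq_or_lt with h0 | h0
      · rw [← h0]; exact (Real.exp_pos _).le
      · rw [← Real.exp_log h0]
        exact Real.exp_le_exp.2 h3.le
  have hev' : ∀ᶠ m : ℕ in atTop, ∀ i, len I g (f^[m] x) (mfderiv I I f^[m] x (w i)) ≤
      Real.exp (m * (L + ε)) := by
    rw [eventually_all]; exact hev
  have h4 : L + 3 * ε < l := by rw [hε]; linarith
  have h5 := h.eventually (lt_mem_nhds h4)
  -- the exponential gap wins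
  have h6 : Tendsto (fun m : ℕ => Real.exp (m * (2 * ε))) atTop atTop := by
    apply Real.tendsto_exp_atTop.comp
    exact tendsto_natCast_atTop_atTop.atTop_mul_const (by positivity)
  have h7 := h6.eventually (eventually_gt_atTop ((w.support.card : ℝ)))
  obtain ⟨m, hm1, hm2, hm3, hm0⟩ := (hev'.and (h5.and (h7.and (eventually_gt_atTop 0)))).exists
  have hm0' : (0 : ℝ) < m := by exact_mod_cast hm0
  have h8 : Real.exp (m * (L + 3 * ε)) < len I g (f^[m] x) (mfderiv I I f^[m] x u) := by
    rw [← Real.exp_log (hpos m)]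
    apply Real.exp_lt_exp.2
    rw [one_div, lt_inv_mul_iff₀ hm0'] at hm2
    exact hm2
  have h9 : len I g (f^[m] x) (mfderiv I I f^[m] x u) ≤
      (w.support.card : ℝ) * Real.exp (m * (L + ε)) := by
    have e : mfderiv I I f^[m] x u = ∑ i ∈ w.support, mfderiv I I f^[m] x (w i) := by
      rw [← hwu, Finsupp.sum, map_sum]
    rw [e]
    refine (len_sum_le g _ _ _).trans ?_
    refine (Finset.sum_le_sum fun i _ => hm1 i).trans ?_
    rw [Finset.sum_const, nsmul_eq_mul]
  have h10 : Real.exp (m * (L + 3 * ε)) = Real.exp (m * (2 * ε)) * Real.exp (m * (L + ε)) := by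
    rw [← Real.exp_add]; congr 1; ring
  have h11 : (w.support.card : ℝ) * Real.exp (m * (L + ε)) <
      Real.exp (m * (2 * ε)) * Real.exp (m * (L + ε)) :=
    mul_lt_mul_of_pos_right hm3 (Real.exp_pos _)
  rw [← h10] at h11
  linarith

end Pool.Agent.Helper26K1.Pesin
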