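import Pool.Agent.Helper26K1.Het.Expo

set_option autoImplicit false

open Complex Metric Module MeasureTheory Filter
open scoped Manifold ContDiff Topology
open Pool.Agent.Helper26K1.Pesin

namespace Pool.Agent.Helper26K1.Het

attribute [local instance] finrank_real_complex_fact'

lemma smooth_iterate {G : Circle × Circle → Circle × Circle} (hG : ContMDiff II II ω G) (m : ℕ) :
    ContMDiff II II ω (G^[m]) := by
  induction m with
  | zero => exact contMDiff_id
  | succ m ih => rw [Function.iterate_succ]; exact ih.comp hG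

lemma D_iter_zero {G : Circle × Circle → Circle × Circle} (p : Circle × Circle) (u : E2) :
    D (G^[0]) p u = u := by
  have h : HasMFDerivAt II II (G^[0]) p (ContinuousLinearMap.id ℝ E2) := hasMFDerivAt_id p
  have h2 : D (G^[0]) p = ContinuousLinearMap.id ℝ E2 := h.mfderiv
  rw [h2]; rfl

lemma D_iter_succ {G : Circle × Circle → Circle × Circle} (hG : ContMDiff II II ω G)
    (p : Circle × Circle) (hp : G p = p) (m : ℕ) (u : E2) :
    D (G^[m + 1]) p u = D (G^[m]) p (D G p u) := by
  have h1 := hasMFDerivAt_D' (smooth_iterate hG m) p (G p) hp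
  have h2 := HasMFDerivAt.comp p h1 (hasMFDerivAt_D hG p)
  have h3 : D (G^[m + 1]) p = (D (G^[m]) p).comp (D G p) := h2.mfderiv
  rw [h3]; rfl

lemma D_iter_eig {G : Circle × Circle → Circle × Circle} (hG : ContMDiff II II ω G)
    (p : Circle × Circle) (hp : G p = p) {u : E2} {c : ℝ} (hu : D G p u = c • u) (m : ℕ) :
    D (G^[m]) p u = c ^ m • u := by
  induction m with
  | zero => rw [D_iter_zero, pow_zero, one_smul]
  | succ m ih => rw [D_iter_succ hG p hp, hu, map_smul, ih, smul_smul, pow_succ']

lemma D_iter_P {G : Circle × Circle → Circle × Circle} (hG : ContMDiff II II ω G)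
    (p : Circle × Circle) (hp : G p = p) {k : ℝ × ℝ → ℝ × ℝ}
    (hk : ∀ x, D G p (P p x) = P p (k x)) (m : ℕ) (x : ℝ × ℝ) :
    D (G^[m]) p (P p x) = P p (k^[m] x) := by
  induction m generalizing x with
  | zero => rw [D_iter_zero]; rfl
  | succ m ih => rw [D_iter_succ hG p hp, hk, ih, Function.iterate_succ_apply]

lemma len_congr (g : Bundle.RiemannianMetric (fun x : Circle × Circle => TangentSpace II x))
    {q p : Circle × Circle} (h : q = p) (v : E2) :
    len II g q (show TangentSpace II q from v) = len II g p (show TangentSpace II p from v) := by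
  subst h; rfl

lemma len_iter (g : Bundle.RiemannianMetric (fun x : Circle × Circle => TangentSpace II x))
    {G : Circle × Circle → Circle × Circle} (p : Circle × Circle) (hp : G p = p) (m : ℕ)
    (u : TangentSpace II p) :
    len II g (G^[m] p) (mfderiv II II G^[m] p u) =
      len II g p (show TangentSpace II p from D (G^[m]) p u) :=
  len_congr g (Function.iterate_fixed hp m) (D (G^[m]) p u)

/-- squeezing logarithms of geometric growth -/
lemma tendsto_log_geom {a : ℕ → ℝ} {c1 c2 κ : ℝ} (hc1 : 0 < c1) (hκ : 0 < κ)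
    (h1 : ∀ m, c1 * κ ^ m ≤ a m) (h2 : ∀ m, a m ≤ c2 * κ ^ m) :
    Tendsto (fun m : ℕ => (1 / (m : ℝ)) * Real.log (a m)) atTop (𝓝 (Real.log κ)) := by
  have hc2 : 0 < c2 := by
    have := (h1 0).trans (h2 0)
    simp only [pow_zero, mul_one] at this
    linarith
  have hlog : ∀ c : ℝ, 0 < c → ∀ m : ℕ, 0 < m →
      (1 / (m : ℝ)) * Real.log (c * κ ^ m) = (1 / (m : ℝ)) * Real.log c + Real.log κ := by
    intro c hc m hm
    have hm' : (m : ℝ) ≠ 0 := by exact_mod_cast hm.ne'
    rw [Real.log_mul hc.ne' (pow_pos hκ m).ne', Real.log_pow]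
    field_simp
  have hlim : ∀ c : ℝ, 0 < c → Tendsto (fun m : ℕ => (1 / (m : ℝ)) * Real.log (c * κ ^ m)) atTop
      (𝓝 (Real.log κ)) := by
    intro c hc
    have h3 := ((tendsto_one_div_atTop_nhds_zero_nat (𝕜 := ℝ)).mul_const (Real.log c)).add_const
      (Real.log κ)
    rw [zero_mul, zero_add] at h3
    refine h3.congr' ?_
    filter_upwards [eventually_gt_atTop 0] with m hm
    rw [hlog c hc m hm]
  refine tendsto_of_tendsto_of_tendsto_of_le_of_le (hlim c1 hc1) (hlim c2 hc2) ?_ ?_
  · intro m
    apply mul_le_mul_of_nonneg_left _ (by positivity)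
    exact Real.log_le_log (by positivity) (h1 m)
  · intro m
    apply mul_le_mul_of_nonneg_left _ (by positivity)
    exact Real.log_le_log (lt_of_lt_of_le (by positivity) (h1 m)) (h2 m)

/-- growth along an eigenvector -/
lemma growth_eig (g : Bundle.RiemannianMetric (fun x : Circle × Circle => TangentSpace II x))
    {G : Circle × Circle → Circle × Circle} (hG : ContMDiff II II ω G) (p : Circle × Circle)
    (hp : G p = p) {u : TangentSpace II p} {c : ℝ} (hc : 0 < c) (hu : D G p u = c • u)
    (hne : u ≠ 0) :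
    Tendsto (fun m : ℕ => (1 / (m : ℝ)) *
      Real.log (len II g (G^[m] p) (mfderiv II II G^[m] p u))) atTop (𝓝 (Real.log c)) := by
  have e : ∀ m, len II g (G^[m] p) (mfderiv II II G^[m] p u) = len II g p u * c ^ m := by
    intro m
    rw [len_iter g p hp m u, D_iter_eig hG p hp hu m]
    have := len_smul g p (c ^ m) u
    rw [abs_of_pos (pow_pos hc m)] at this
    rw [mul_comm]
    exact this
  have hpos := len_pos g p hne
  exact tendsto_log_geom (c2 := len II g p u) hpos hc (fun m => (e m).ge) (fun m => (e m).le)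

end Pool.Agent.Helper26K1.Het
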