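import Pool.Agent.Helper26K1.Het.Split

set_option autoImplicit false

open Complex Metric Module MeasureTheory Filter
open scoped Manifold ContDiff Topology
open Pool.Agent.Helper26K1.Pesin

namespace Pool.Agent.Helper26K1.Het

attribute [local instance] finrank_real_complex_fact'

variable (g : Bundle.RiemannianMetric (fun x : Circle × Circle => TangentSpace II x))

lemma P_ne {p : Circle × Circle} {x : ℝ × ℝ} (hx : x ≠ 0) : P p x ≠ 0 := by
  intro h
  apply hx
  apply P_injective p
  rw [h, map_zero]

/-- tangent vectors in the covering coordinates -/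
noncomputable def PT (p : Circle × Circle) (x : ℝ × ℝ) : TangentSpace II p := P p x

lemma PT_smul (p : Circle × Circle) (a : ℝ) (x : ℝ × ℝ) : a • PT p x = PT p (a • x) :=
  (map_smul (P p) a x).symm

lemma PT_add (p : Circle × Circle) (x y : ℝ × ℝ) : PT p x + PT p y = PT p (x + y) :=
  (map_add (P p) x y).symm

lemma PT_ne {p : Circle × Circle} {x : ℝ × ℝ} (hx : x ≠ 0) : PT p x ≠ 0 := P_ne hx

/-- Oseledets splitting at the centres -/
noncomputable def splitCen {p : Circle × Circle} (h : IsCen p) : Splitting II g F p where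
  k := 1
  V := fun _ => ⊤
  χ := fun _ => Real.log (11 / 10) / 2
  injective := fun _ _ _ => Subsingleton.elim _ _
  ne_bot := by
    intro _ hbot
    have h1 : PT p (1, 0) ∈ (⊤ : Submodule ℝ (TangentSpace II p)) := trivial
    rw [hbot, Submodule.mem_bot] at h1
    exact PT_ne (by simp) h1
  internal := by
    rw [DirectSum.isInternal_submodule_iff_iSupIndep_and_iSup_eq_top]
    exact ⟨iSupIndep_subsingleton _, by simp⟩
  forward := by
    intro _ u _ hu
    have hs : sgC p ^ 2 = 1 := by rcases sg_cen h with h | h <;> rw [h] <;> norm_num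
    exact growth_conf g (G := F) F.contMDiff p (F_fix (Or.inr h)) hs (by norm_num) (DF_cen h)
      (Qf_kc hs) hu
  backward := by
    intro _ u _ hu
    have hs : sgC p ^ 2 = 1 := by rcases sg_cen h with h | h <;> rw [h] <;> norm_num
    have hfix : F.symm p = p := by
      conv_lhs => rw [← F_fix (Or.inr h : p ∈ K8)]
      exact F.symm_apply_apply p
    have h1 := growth_conf g (G := F.symm) F.symm.contMDiff p hfix hs (κ := (11/10)⁻¹)
      (by norm_num) (DFs_cen h) (Qf_kc' hs) hu
    have h2 := h1.neg
    rw [Real.log_inv] at h2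
    have e : -(-Real.log (11 / 10) / 2) = Real.log (11 / 10) / 2 := by ring
    rw [e] at h2
    refine h2.congr fun m => ?_
    rw [one_div_neg_eq_neg_one_div, neg_mul]

/-- backward growth along an eigenvector -/
lemma back_eig {p : Circle × Circle} (hp : F p = p) {u : TangentSpace II p} {c : ℝ} (hc : 0 < c)
    (hu : D F p u = c • u) (hne : u ≠ 0) :
    Tendsto (fun m : ℕ => (1 / (-(m : ℝ))) *
      Real.log (len II g (F.symm^[m] p) (mfderiv II II F.symm^[m] p u))) atTop
      (𝓝 (Real.log c)) := by
  have hfix : F.symm p = p := by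
    conv_lhs => rw [← hp]
    exact F.symm_apply_apply p
  have h0 : D F.symm p u = c⁻¹ • u := by
    have h1 := DF_symm hp u
    rw [hu] at h1
    have h1' : c • D F.symm p u = u := (map_smul (D F.symm p) c u).symm.trans h1
    have h1'' : c⁻¹ • (c • D F.symm p u) = c⁻¹ • u := congrArg (fun w : E2 => c⁻¹ • w) h1'
    rw [smul_smul, inv_mul_cancel₀ hc.ne', one_smul] at h1''
    exact h1''
  have h1 := growth_eig g (G := F.symm) F.symm.contMDiff p hfix (inv_pos.2 hc) h0 hne
  have h2 := h1.neg
  rw [Real.log_inv, neg_neg] at h2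
  refine h2.congr fun m => ?_
  rw [one_div_neg_eq_neg_one_div, neg_mul]

lemma eig1 {p : Circle × Circle} (h : IsSad p) (a : ℝ) :
    D F p (P p (a, 0)) = lam p • P p (a, 0) := by
  rw [DF_sad h, ← map_smul]
  congr 1
  ext <;> simp

lemma eig2 {p : Circle × Circle} (h : IsSad p) (a : ℝ) :
    D F p (P p (0, a)) = mu p • P p (0, a) := by
  rw [DF_sad h, ← map_smul]
  congr 1
  ext <;> simp

lemma lam_pos {p : Circle × Circle} (h : IsSad p) : 0 < lam p := by
  rcases lam_mu h with h | h <;> rw [h.1] <;> norm_num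

lemma mu_pos {p : Circle × Circle} (h : IsSad p) : 0 < mu p := by
  rcases lam_mu h with h | h <;> rw [h.2] <;> norm_num

lemma lam_ne_mu {p : Circle × Circle} (h : IsSad p) : Real.log (lam p) ≠ Real.log (mu p) := by
  intro he
  have := Real.log_injOn_pos (lam_pos h) (mu_pos h) he
  rcases lam_mu h with h | h <;> rw [h.1, h.2] at this <;> norm_num at this

/-- the two coordinate lines -/
noncomputable def line (p : Circle × Circle) (i : Fin 2) : Submodule ℝ (TangentSpace II p) :=
  if i = 0 then Submodule.span ℝ {PT p (1, 0)}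
  else Submodule.span ℝ {PT p (0, 1)}

lemma mem_line0 {p : Circle × Circle} {u : TangentSpace II p} (hu : u ∈ line p 0) :
    ∃ a : ℝ, u = PT p (a, 0) := by
  have h : u ∈ Submodule.span ℝ {PT p (1, 0)} := hu
  obtain ⟨a, ha⟩ := Submodule.mem_span_singleton.1 h
  refine ⟨a, ?_⟩
  rw [← ha, PT_smul]
  congr 1; ext <;> simp

lemma mem_line1 {p : Circle × Circle} {u : TangentSpace II p} (hu : u ∈ line p 1) :
    ∃ a : ℝ, u = PT p (0, a) := by
  have h : u ∈ Submodule.span ℝ {PT p (0, 1)} := hu
  obtain ⟨a, ha⟩ := Submodule.mem_span_singleton.1 h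
  refine ⟨a, ?_⟩
  rw [← ha, PT_smul]
  congr 1; ext <;> simp

lemma line_mem0 (p : Circle × Circle) (a : ℝ) : PT p (a, 0) ∈ line p 0 := by
  have h : PT p (a, 0) ∈ Submodule.span ℝ {PT p (1, 0)} := by
    apply Submodule.mem_span_singleton.2
    refine ⟨a, ?_⟩
    rw [PT_smul]
    congr 1; ext <;> simp
  exact h

lemma line_mem1 (p : Circle × Circle) (a : ℝ) : PT p (0, a) ∈ line p 1 := by
  have h : PT p (0, a) ∈ Submodule.span ℝ {PT p (0, 1)} := by
    apply Submodule.mem_span_singleton.2
    refine ⟨a, ?_⟩
    rw [PT_smul]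
    congr 1; ext <;> simp
  exact h

/-- Oseledets splitting at the saddles -/
noncomputable def splitSad {p : Circle × Circle} (h : IsSad p) : Splitting II g F p where
  k := 2
  V := line p
  χ := fun i => if i = 0 then Real.log (lam p) else Real.log (mu p)
  injective := by
    intro i j hij
    fin_cases i <;> fin_cases j
    · rfl
    · exact absurd hij (lam_ne_mu h)
    · exact absurd hij.symm (lam_ne_mu h)
    · rfl
  ne_bot := by
    intro i hbot
    fin_cases i
    · have h1 := line_mem0 p 1
      change line p 0 = ⊥ at hbot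
      rw [hbot, Submodule.mem_bot] at h1
      exact PT_ne (by simp) h1
    · have h1 := line_mem1 p 1
      change line p 1 = ⊥ at hbot
      rw [hbot, Submodule.mem_bot] at h1
      exact PT_ne (by simp) h1
  internal := by
    rw [DirectSum.isInternal_submodule_iff_isCompl (i := 0) (j := 1) _ (by decide)
      (by ext i; fin_cases i <;> simp)]
    constructor
    · rw [Submodule.disjoint_def]
      intro u hu0 hu1
      obtain ⟨a, ha⟩ := mem_line0 hu0
      obtain ⟨b, hb⟩ := mem_line1 hu1
      have h1 : PT p (a, 0) = PT p (0, b) := by rw [← ha, ← hb]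
      have h2 := P_injective p h1
      have h3 : a = 0 := congrArg Prod.fst h2
      rw [ha, h3]
      exact map_zero (P p)
    · rw [codisjoint_iff, eq_top_iff]
      intro u _
      obtain ⟨x, hx⟩ := P_surjective p u
      rw [Submodule.mem_sup]
      refine ⟨PT p (x.1, 0), line_mem0 p _, PT p (0, x.2), line_mem1 p _, ?_⟩
      rw [PT_add, ← hx, PT]
      congr 1; ext <;> simp
  forward := by
    intro i u hu hne
    fin_cases i
    · obtain ⟨a, rfl⟩ := mem_line0 hu
      exact growth_eig g (G := F) F.contMDiff p (F_fix (Or.inl h)) (lam_pos h) (eig1 h a) hne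
    · obtain ⟨a, rfl⟩ := mem_line1 hu
      exact growth_eig g (G := F) F.contMDiff p (F_fix (Or.inl h)) (mu_pos h) (eig2 h a) hne
  backward := by
    intro i u hu hne
    fin_cases i
    · obtain ⟨a, rfl⟩ := mem_line0 hu
      exact back_eig g (F_fix (Or.inl h)) (lam_pos h) (eig1 h a) hne
    · obtain ⟨a, rfl⟩ := mem_line1 hu
      exact back_eig g (F_fix (Or.inl h)) (mu_pos h) (eig2 h a) hne

lemma exists_chi {p : Circle × Circle} (h : p ∈ K8) : ∃ c, IsChiPlus II g F p c := by
  rcases h with h | h
  · exact ⟨_, splitSad g h, rfl⟩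
  · exact ⟨_, splitCen g h, rfl⟩

lemma len_iter_pos {p : Circle × Circle} (hp : F p = p) {u : TangentSpace II p} (hu : u ≠ 0)
    (m : ℕ) : 0 < len II g (F^[m] p) (mfderiv II II F^[m] p u) := by
  rw [len_iter g p hp m u]
  apply len_pos
  intro h0
  apply hu
  -- invertibility of the derivative
  have hinj : ∀ m : ℕ, ∀ v : E2, D (F^[m]) p v = 0 → v = 0 := by
    intro m
    induction m with
    | zero => intro v hv; rwa [D_iter_zero] at hv
    | succ m ih =>
      intro v hv
      rw [D_iter_succ F.contMDiff p hp] at hv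
      have h1 := ih _ hv
      have h2 := DF_symm hp v
      rw [h1, map_zero] at h2
      exact h2.symm
  exact hinj m u h0

/-- at every fixed point the sum of the positive exponents is bounded below -/
lemma chi_lower {p : Circle × Circle} (h : p ∈ K8) {c : ℝ} (hc : IsChiPlus II g F p c) :
    Real.log (11 / 10) / 2 ≤ c := by
  obtain ⟨S, rfl⟩ := hc
  have hfd : FiniteDimensional ℝ E2 := inferInstance
  have hl1 : Real.log (11/10) / 2 ≤ Real.log (11/10) := by
    have : 0 ≤ Real.log (11/10) := Real.log_nonneg (by norm_num)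
    linarith
  rcases h with h | h
  · rcases lam_mu h with hv | hv
    · have hne : PT p (1, 0) ≠ 0 := PT_ne (by simp)
      have h1 := growth_eig g (G := F) F.contMDiff p (F_fix (Or.inl h)) (lam_pos h) (eig1 h 1) hne
      have h2 := le_sumPos S (len_iter_pos g (F_fix (Or.inl h)) hne) h1
      rw [hv.1] at h2
      have : Real.log (11/10) ≤ Real.log (11/9) := Real.log_le_log (by norm_num) (by norm_num)
      linarith
    · have hne : PT p (0, 1) ≠ 0 := PT_ne (by simp)
      have h1 := growth_eig g (G := F) F.contMDiff p (F_fix (Or.inl h)) (mu_pos h) (eig2 h 1) hne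
      have h2 := le_sumPos S (len_iter_pos g (F_fix (Or.inl h)) hne) h1
      rw [hv.2] at h2
      have : Real.log (11/10) ≤ Real.log (10/9) := Real.log_le_log (by norm_num) (by norm_num)
      linarith
  · have hne : PT p (1, 0) ≠ 0 := PT_ne (by simp)
    have hs : sgC p ^ 2 = 1 := by rcases sg_cen h with h | h <;> rw [h] <;> norm_num
    have h1 := growth_conf g (G := F) F.contMDiff p (F_fix (Or.inr h)) hs (by norm_num) (DF_cen h)
      (Qf_kc hs) hne
    exact le_sumPos S (len_iter_pos g (F_fix (Or.inr h)) hne) h1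

variable [MeasurableSpace (Circle × Circle)] [BorelSpace (Circle × Circle)]

/-- the main theorem for the map `F` -/
theorem main (ρ : Measure (Circle × Circle)) [IsProbabilityMeasure ρ]
    (hρ : MeasurePreserving F ρ ρ) :
    ksEntropy ρ F = 0 ∧ (∀ᵐ x ∂ρ, ∃ c, IsChiPlus II g F x c) ∧
      ∀ χ : Circle × Circle → ℝ, (∀ᵐ x ∂ρ, IsChiPlus II g F x (χ x)) →
        Integrable χ ρ ∧ Real.log (11 / 10) / 2 ≤ ∫ x, χ x ∂ρ := by
  have hK := carried ρ hρ
  refine ⟨ksEntropy_eq_zero ρ finite_K8 (fun x hx => F_fix hx) hK, ?_, ?_⟩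
  · filter_upwards [hK] with x hx
    exact exists_chi g hx
  · intro χ hχ
    have hint : Integrable χ ρ := by
      have h1 : IntegrableOn χ K8 ρ := by
        have h2 : K8 = ⋃ x ∈ K8, {x} := by simp
        rw [h2, integrableOn_finite_biUnion finite_K8]
        intro x _
        exact integrableOn_singleton (by simp) (measure_lt_top ρ _)
      have h3 : ρ.restrict K8 = ρ := Measure.restrict_eq_self_of_ae_mem hK
      rw [IntegrableOn, h3] at h1
      exact h1
    refine ⟨hint, ?_⟩
    have h4 : ∀ᵐ x ∂ρ, Real.log (11 / 10) / 2 ≤ χ x := by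
      filter_upwards [hK, hχ] with x hx hx2
      exact chi_lower g hx hx2
    have h5 := integral_mono_ae (integrable_const (Real.log (11 / 10) / 2)) hint h4
    simpa using h5

end Pool.Agent.Helper26K1.Het
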