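import Pool.Agent.Helper26K1.Het.Smooth

set_option autoImplicit false

open Complex Metric Module MeasureTheory
open scoped Manifold ContDiff Topology

namespace Pool.Agent.Helper26K1.Het

lemma circ_sq (z : Circle) : (z : ℂ).re ^ 2 + (z : ℂ).im ^ 2 = 1 := by
  have := z.normSq_coe
  rw [Complex.normSq_apply] at this
  linarith

lemma mobC_re {r : ℝ} {z : ℂ} (hz : z.re ^ 2 + z.im ^ 2 = 1) :
    (mobC r z).re = (z.re * (1 + r ^ 2) + 2 * r) / (1 + 2 * r * z.re + r ^ 2) := by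
  have h1 : normSq (1 + (r : ℂ) * z) = 1 + 2 * r * z.re + r ^ 2 := by
    rw [Complex.normSq_apply]
    simp
    linear_combination r ^ 2 * hz
  rw [mobC, Complex.div_re, h1]
  simp
  rw [← add_div]
  congr 1
  linear_combination r * hz

lemma mobC_im {r : ℝ} {z : ℂ} (hz : z.re ^ 2 + z.im ^ 2 = 1) :
    (mobC r z).im = (z.im * (1 - r ^ 2)) / (1 + 2 * r * z.re + r ^ 2) := by
  have h1 : normSq (1 + (r : ℂ) * z) = 1 + 2 * r * z.re + r ^ 2 := by
    rw [Complex.normSq_apply]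
    simp
    linear_combination r ^ 2 * hz
  rw [mobC, Complex.div_im, h1]
  simp
  rw [← sub_div]
  congr 1
  ring

lemma norm_stretch (w : ℂ) : ‖stretch (11/10) w‖ = Real.sqrt (121/100 * w.re ^ 2 + w.im ^ 2) := by
  rw [← Real.sqrt_sq (norm_nonneg (stretch (11/10) w)), ← Complex.normSq_eq_norm_sq,
    Complex.normSq_apply]
  congr 1
  simp [stretch]
  ring

lemma linC_re (w : ℂ) : (linC (11/10) w).re =
    11/10 * w.re / Real.sqrt (121/100 * w.re ^ 2 + w.im ^ 2) := by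
  rw [linC, Complex.div_ofReal_re, norm_stretch]
  simp [stretch]

lemma linC_im (w : ℂ) : (linC (11/10) w).im =
    w.im / Real.sqrt (121/100 * w.re ^ 2 + w.im ^ 2) := by
  rw [linC, Complex.div_ofReal_im, norm_stretch]
  simp [stretch]


lemma sq_le_one_of {x : ℝ} (h : |x| ≤ 1) : x ^ 2 ≤ 1 := (sq_le_one_iff_abs_le_one x).2 h

lemma aux_N {x d : ℝ} (h : |x| ≤ 1) : 4 / 5 ≤ 1 - x / 5 + d ^ 2 / 100 := by
  have := abs_le.1 h
  have h2 := sq_nonneg d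
  linarith

lemma aux_N' {x d : ℝ} (h : |x| ≤ 1) : 4 / 5 ≤ 1 + x / 5 + d ^ 2 / 100 := by
  have := abs_le.1 h
  have h2 := sq_nonneg d
  linarith

lemma aux_L {x y : ℝ} (hx : 0 ≤ x) (hy : 0 ≤ y) (hx1 : x ≤ 1) :
    (1 - x / 100) * (1 - y / 100) ≤ 1 := by nlinarith

lemma aux_sq {N : ℝ} (h : 4 / 5 ≤ N) : 16 / 25 ≤ N ^ 2 := by nlinarith

lemma aux_le_mul {a b : ℝ} (ha : 0 ≤ a) (hb : 1 ≤ b) : a ≤ a * b := by nlinarith

lemma aux_D {D : ℝ} (h : D ^ 2 < 1) : -1 < D ∧ D < 1 := abs_lt.1 ((sq_lt_one_iff_abs_lt_one D).1 h)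

lemma aux_gt {D : ℝ} (h : D ^ 2 < 1) :
    D * (101 / 100 + D / 5) < D * (101 / 100) + 1 / 5 := by nlinarith

lemma aux_S {D1 S : ℝ} (h : 0 ≤ D1) (hS : S ≤ 11 / 10) : D1 * S ≤ 11 / 10 * D1 := by nlinarith

lemma aux_e {c d s N c1 : ℝ} (hN : N = 1 - c * d / 5 + d ^ 2 / 100)
    (e1 : c1 * N = c * (1 + d ^ 2 / 100) - d / 5) (hc : c ^ 2 + s ^ 2 = 1) (hd : d ^ 2 = 1) :
    c1 * d * N = c * d * N - s ^ 2 / 5 := by
  have : c1 * d * N = d * (c1 * N) := by ring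
  rw [this, e1, hN]
  linear_combination (-c * d / 100 + c * d * (1 + d ^ 2) / 100 - 1 / 5 + c ^ 2 / 5 - c * d ^ 3 / 100) * hd + (1/5) * hc

/-- the key inequality -/
lemma key_ineq {c d c1 N : ℝ} (hc : |c| ≤ 1) (hd : |d| ≤ 1) (hc1 : |c1| ≤ 1)
    (hN : N = 1 - c * d / 5 + d ^ 2 / 100) (h : N * c1 = c * (1 + d ^ 2 / 100) - d / 5)
    (hne : ¬ (d = 0 ∧ c1 = 0)) :
    ((1 - d ^ 2 / 100) * (1 - c1 ^ 2 / 100)) ^ 2 <
      (N * (1 + c1 * d / 5 + c1 ^ 2 / 100)) ^ 2 +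
        21 / 100 * (N * (d * (1 + c1 ^ 2 / 100) + c1 / 5)) ^ 2 := by
  have hc' := abs_le.1 hc
  have hd' := abs_le.1 hd
  have hc1' := abs_le.1 hc1
  have hd2 : d ^ 2 ≤ 1 := sq_le_one_of hd
  have hc2 : c1 ^ 2 ≤ 1 := sq_le_one_of hc1
  have hcd : |c * d| ≤ 1 := by
    rw [abs_mul]
    exact mul_le_one₀ hc (abs_nonneg _) hd
  have hcd' := abs_le.1 hcd
  set L := (1 - d ^ 2 / 100) * (1 - c1 ^ 2 / 100) with hL
  have e1 : N * (1 + c1 * d / 5 + c1 ^ 2 / 100) = L + (c1 ^ 2 - d ^ 2) * (1 - c * d / 10) / 50 := by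
    rw [hL]
    have : N * (1 + c1 * d / 5 + c1 ^ 2 / 100) = N + (N * c1) * d / 5 + N * c1 ^ 2 / 100 := by ring
    rw [this, h, hN]
    ring
  have hLpos : 0 < L := by
    rw [hL]; apply mul_pos <;> linarith
  have hL1 : L ≤ 1 := by
    rw [hL]
    exact aux_L (sq_nonneg _) (sq_nonneg _) hd2
  have hN0 : 4 / 5 ≤ N := by
    rw [hN]; exact aux_N hcd
  rw [e1]
  set E := (c1 ^ 2 - d ^ 2) * (1 - c * d / 10) / 50 with hE
  by_cases hcase : d ^ 2 < c1 ^ 2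
  · have hEpos : 0 < E := by
      rw [hE]
      have : 0 < (c1 ^ 2 - d ^ 2) * (1 - c * d / 10) := by
        apply mul_pos <;> linarith
      linarith
    have : L ^ 2 < (L + E) ^ 2 := pow_lt_pow_left₀ (by linarith) hLpos.le two_ne_zero
    have h2 : 0 ≤ 21 / 100 * (N * (d * (1 + c1 ^ 2 / 100) + c1 / 5)) ^ 2 := by positivity
    linarith
  · push Not at hcase
    have hd0 : d ≠ 0 := by
      intro h0
      apply hne
      refine ⟨h0, ?_⟩
      rw [h0] at hcase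
      have : c1 ^ 2 ≤ 0 := by simpa using hcase
      exact pow_eq_zero_iff two_ne_zero |>.1 (le_antisymm this (sq_nonneg _))
    have hdpos : 0 < d ^ 2 := by positivity
    have hEl : -(11 / 500) * d ^ 2 ≤ E := by
      rw [hE]
      have h1 : (d ^ 2 - c1 ^ 2) * (1 - c * d / 10) ≤ d ^ 2 * (11 / 10) := by
        have q1 : 0 ≤ c1 ^ 2 := sq_nonneg _
        apply mul_le_mul
        · linarith
        · linarith
        · linarith
        · exact sq_nonneg _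
      linarith
    have h3 : (4 / 5 * |d|) ≤ |d * (1 + c1 ^ 2 / 100) + c1 / 5| := by
      have h4 : |c1| ≤ |d| := by
        exact sq_le_sq.1 hcase
      have h5 : |d * (1 + c1 ^ 2 / 100)| ≤ |d * (1 + c1 ^ 2 / 100) + c1 / 5| + |c1 / 5| := by
        have := abs_sub (d * (1 + c1 ^ 2 / 100) + c1 / 5) (c1 / 5)
        simpa using this
      have h6 : |d| ≤ |d * (1 + c1 ^ 2 / 100)| := by
        rw [abs_mul]
        have : (1:ℝ) ≤ |1 + c1 ^ 2 / 100| := by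
          rw [abs_of_nonneg (by positivity)]
          have : 0 ≤ c1 ^ 2 := sq_nonneg _
          linarith
        exact aux_le_mul (abs_nonneg d) this
      have h7 : |c1 / 5| = |c1| / 5 := by
        rw [abs_div]; norm_num
      linarith
    have h8 : 16 / 25 * d ^ 2 ≤ (d * (1 + c1 ^ 2 / 100) + c1 / 5) ^ 2 := by
      have := mul_self_le_mul_self (by positivity) h3
      rw [abs_mul_abs_self] at this
      have h9 : 4 / 5 * |d| * (4 / 5 * |d|) = 16 / 25 * d ^ 2 := by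
        rw [← sq_abs d]; ring
      rw [h9] at this
      rw [sq (d * (1 + c1 ^ 2 / 100) + c1 / 5)]
      exact this
    have h10 : 16 / 25 * (16 / 25 * d ^ 2) ≤ (N * (d * (1 + c1 ^ 2 / 100) + c1 / 5)) ^ 2 := by
      rw [mul_pow]
      apply mul_le_mul _ h8 (by positivity) (by positivity)
      exact aux_sq hN0
    have h11 : -(11 / 500) * d ^ 2 ≤ L * E := by
      by_cases hE0 : 0 ≤ E
      · have : 0 ≤ L * E := mul_nonneg hLpos.le hE0
        linarith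
      · push Not at hE0
        have : (1 - L) * E ≤ 0 := mul_nonpos_of_nonneg_of_nonpos (by linarith) hE0.le
        linarith
    have h12 : (L + E) ^ 2 = L ^ 2 + 2 * (L * E) + E ^ 2 := by ring
    have h13 : 0 ≤ E ^ 2 := sq_nonneg _
    rw [h12]
    linarith

section coords

variable (p : Circle × Circle)

/-- real parts and imaginary parts of the image -/
lemma F_coords :
    ∃ c1 s1 d1 t1 N N' : ℝ,
      N = 1 - (p.1 : ℂ).re * (p.2 : ℂ).re / 5 + (p.2 : ℂ).re ^ 2 / 100 ∧ 0 < N ∧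
      N' = 1 + c1 * (p.2 : ℂ).re / 5 + c1 ^ 2 / 100 ∧ 0 < N' ∧
      c1 ^ 2 + s1 ^ 2 = 1 ∧ d1 ^ 2 + t1 ^ 2 = 1 ∧
      c1 * N = (p.1 : ℂ).re * (1 + (p.2 : ℂ).re ^ 2 / 100) - (p.2 : ℂ).re / 5 ∧
      s1 * N = (p.1 : ℂ).im * (1 - (p.2 : ℂ).re ^ 2 / 100) ∧
      d1 * N' = (p.2 : ℂ).re * (1 + c1 ^ 2 / 100) + c1 / 5 ∧
      t1 * N' = (p.2 : ℂ).im * (1 - c1 ^ 2 / 100) ∧
      ((F p).1 : ℂ).re = c1 ∧ ((F p).1 : ℂ).im = s1 ∧
      ((F p).2 : ℂ).re = 11 / 10 * d1 / Real.sqrt (1 + 21 / 100 * d1 ^ 2) ∧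
      ((F p).2 : ℂ).im = t1 / Real.sqrt (1 + 21 / 100 * d1 ^ 2) := by
  set z1 : Circle := (fA p).1 with hz1
  set w1 : Circle := (fB (fA p)).2 with hw1
  have hz1C : (z1 : ℂ) = mobC (-(p.2 : ℂ).re / 10) p.1 := rfl
  have hw1C : (w1 : ℂ) = mobC ((z1 : ℂ).re / 10) p.2 := rfl
  have hc := circ_sq p.1
  have hd := circ_sq p.2
  have hc1 := circ_sq z1
  have hd1 := circ_sq w1
  have ac := abs_le.1 (abs_re_le p.1)
  have ad := abs_le.1 (abs_re_le p.2)
  have ac1 := abs_le.1 (abs_re_le z1)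
  have e1 := mobC_re (r := -(p.2 : ℂ).re / 10) hc
  have e2 := mobC_im (r := -(p.2 : ℂ).re / 10) hc
  have e3 := mobC_re (r := (z1 : ℂ).re / 10) hd
  have e4 := mobC_im (r := (z1 : ℂ).re / 10) hd
  rw [← hz1C] at e1 e2
  rw [← hw1C] at e3 e4
  have hN : 0 < 1 - (p.1 : ℂ).re * (p.2 : ℂ).re / 5 + (p.2 : ℂ).re ^ 2 / 100 := by
    have : |(p.1 : ℂ).re * (p.2 : ℂ).re| ≤ 1 := by
      rw [abs_mul]; exact mul_le_one₀ (abs_re_le _) (abs_nonneg _) (abs_re_le _)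
    exact lt_of_lt_of_le (by norm_num) (aux_N this)
  have hN' : 0 < 1 + (z1 : ℂ).re * (p.2 : ℂ).re / 5 + (z1 : ℂ).re ^ 2 / 100 := by
    have : |(z1 : ℂ).re * (p.2 : ℂ).re| ≤ 1 := by
      rw [abs_mul]; exact mul_le_one₀ (abs_re_le _) (abs_nonneg _) (abs_re_le _)
    exact lt_of_lt_of_le (by norm_num) (aux_N' this)
  refine ⟨(z1 : ℂ).re, (z1 : ℂ).im, (w1 : ℂ).re, (w1 : ℂ).im, _, _, rfl, hN, rfl, hN', hc1, hd1,
    ?_, ?_, ?_, ?_, rfl, rfl, ?_, ?_⟩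
  · rw [e1, show 1 + 2 * (-(p.2 : ℂ).re / 10) * (p.1 : ℂ).re + (-(p.2 : ℂ).re / 10) ^ 2 =
      1 - (p.1 : ℂ).re * (p.2 : ℂ).re / 5 + (p.2 : ℂ).re ^ 2 / 100 by ring,
      div_mul_cancel₀ _ hN.ne']
    ring
  · rw [e2, show 1 + 2 * (-(p.2 : ℂ).re / 10) * (p.1 : ℂ).re + (-(p.2 : ℂ).re / 10) ^ 2 =
      1 - (p.1 : ℂ).re * (p.2 : ℂ).re / 5 + (p.2 : ℂ).re ^ 2 / 100 by ring,
      div_mul_cancel₀ _ hN.ne']
    ring
  · rw [e3, show 1 + 2 * ((z1 : ℂ).re / 10) * (p.2 : ℂ).re + ((z1 : ℂ).re / 10) ^ 2 =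
      1 + (z1 : ℂ).re * (p.2 : ℂ).re / 5 + (z1 : ℂ).re ^ 2 / 100 by ring,
      div_mul_cancel₀ _ hN'.ne']
    ring
  · rw [e4, show 1 + 2 * ((z1 : ℂ).re / 10) * (p.2 : ℂ).re + ((z1 : ℂ).re / 10) ^ 2 =
      1 + (z1 : ℂ).re * (p.2 : ℂ).re / 5 + (z1 : ℂ).re ^ 2 / 100 by ring,
      div_mul_cancel₀ _ hN'.ne']
    ring
  · have e5 : ((F p).2 : ℂ) = linC (11/10) (w1 : ℂ) := rfl
    rw [e5, linC_re]
    congr 2
    linear_combination hd1
  · have e5 : ((F p).2 : ℂ) = linC (11/10) (w1 : ℂ) := rfl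
    rw [e5, linC_im]
    congr 2
    linear_combination hd1

end coords

/-- the Lyapunov function -/
noncomputable def W (p : Circle × Circle) : ℝ := ((p.1 : ℂ).im * (p.2 : ℂ).im) ^ 2

lemma W_lt (p : Circle × Circle) (h0 : W p ≠ 0) (h1 : ¬ ((p.1 : ℂ).re = 0 ∧ (p.2 : ℂ).re = 0)) :
    W (F p) < W p := by
  obtain ⟨c1, s1, d1, t1, N, N', hN, hNp, hN', hN'p, hc1, hd1, e1, e2, e3, e4, f1, f2, f3, f4⟩ :=
    F_coords p
  have hq : 0 < 1 + 21 / 100 * d1 ^ 2 := by positivity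
  have hW : W (F p) = s1 ^ 2 * t1 ^ 2 / (1 + 21 / 100 * d1 ^ 2) := by
    rw [W, f2, f4, mul_pow, div_pow, Real.sq_sqrt hq.le, mul_div_assoc]
  have hc1a : |c1| ≤ 1 := by rw [← f1]; exact abs_re_le _
  have hne : ¬ ((p.2 : ℂ).re = 0 ∧ c1 = 0) := by
    rintro ⟨ha, hb⟩
    apply h1
    refine ⟨?_, ha⟩
    rw [ha, hb] at e1
    simpa using e1.symm
  have key := key_ineq (abs_re_le p.1) (abs_re_le p.2) hc1a hN (by rw [mul_comm]; exact e1) hne
  rw [← hN', ← e3] at key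
  have hWp : 0 < W p := lt_of_le_of_ne (sq_nonneg _) (Ne.symm h0)
  have key2 : (s1 * N) ^ 2 * (t1 * N') ^ 2 < W p * ((N * N') ^ 2 * (1 + 21 / 100 * d1 ^ 2)) := by
    have h5 : (s1 * N) ^ 2 * (t1 * N') ^ 2 =
        W p * ((1 - (p.2 : ℂ).re ^ 2 / 100) * (1 - c1 ^ 2 / 100)) ^ 2 := by
      rw [e2, e4, W]; ring
    rw [h5]
    apply mul_lt_mul_of_pos_left _ hWp
    calc _ < _ := key
      _ = _ := by ring
  rw [hW, div_lt_iff₀ hq]
  have hNN : 0 < (N * N') ^ 2 := by positivity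
  have h6 : (s1 * N) ^ 2 * (t1 * N') ^ 2 = s1 ^ 2 * t1 ^ 2 * (N * N') ^ 2 := by ring
  rw [h6] at key2
  have h7 : W p * ((N * N') ^ 2 * (1 + 21 / 100 * d1 ^ 2)) =
    W p * (1 + 21 / 100 * d1 ^ 2) * (N * N') ^ 2 := by ring
  rw [h7] at key2
  exact lt_of_mul_lt_mul_right key2 hNN.le

lemma F_im1 (p : Circle × Circle) : ((F p).1 : ℂ).im = 0 ↔ (p.1 : ℂ).im = 0 := by
  obtain ⟨c1, s1, d1, t1, N, N', hN, hNp, hN', hN'p, hc1, hd1, e1, e2, e3, e4, f1, f2, f3, f4⟩ :=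
    F_coords p
  have hd := circ_sq p.2
  have h2 : (1 - (p.2 : ℂ).re ^ 2 / 100) ≠ 0 := by
    have := sq_le_one_of (abs_re_le p.2)
    intro h; linarith
  rw [f2]
  constructor
  · intro h; rw [h, zero_mul] at e2
    exact (mul_eq_zero.1 e2.symm).resolve_right h2
  · intro h; rw [h, zero_mul] at e2
    exact (mul_eq_zero.1 e2).resolve_right hNp.ne'

lemma F_im2 (p : Circle × Circle) : ((F p).2 : ℂ).im = 0 ↔ (p.2 : ℂ).im = 0 := by
  obtain ⟨c1, s1, d1, t1, N, N', hN, hNp, hN', hN'p, hc1, hd1, e1, e2, e3, e4, f1, f2, f3, f4⟩ :=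
    F_coords p
  have h2 : (1 - c1 ^ 2 / 100) ≠ 0 := by
    have := sq_nonneg s1
    intro h; linarith
  have hq : Real.sqrt (1 + 21 / 100 * d1 ^ 2) ≠ 0 := by positivity
  rw [f4, div_eq_zero_iff]
  constructor
  · rintro (h | h)
    · rw [h, zero_mul] at e4
      exact (mul_eq_zero.1 e4.symm).resolve_right h2
    · exact absurd h hq
  · intro h; rw [h, zero_mul] at e4
    exact Or.inl ((mul_eq_zero.1 e4).resolve_right hN'p.ne')

lemma W_le (p : Circle × Circle) : W (F p) ≤ W p := by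
  by_cases h0 : W p = 0
  · have h1 : W (F p) = 0 := by
      rw [W, sq_eq_zero_iff, mul_eq_zero] at h0 ⊢
      rcases h0 with h | h
      · exact Or.inl ((F_im1 p).2 h)
      · exact Or.inr ((F_im2 p).2 h)
    rw [h0, h1]
  · by_cases h1 : (p.1 : ℂ).re = 0 ∧ (p.2 : ℂ).re = 0
    · obtain ⟨c1, s1, d1, t1, N, N', hN, hNp, hN', hN'p, hc1, hd1, e1, e2, e3, e4, f1, f2, f3, f4⟩ :=
        F_coords p
      rw [h1.1, h1.2] at hN e1
      simp only [h1.2] at e2 e3 e4 hN'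
      have a1 : N = 1 := by rw [hN]; ring
      rw [a1] at e1 e2
      have a2 : c1 = 0 := by linarith
      rw [a2] at e3 e4 hN'
      have a3 : N' = 1 := by rw [hN']; ring
      rw [a3] at e3 e4
      have a4 : d1 = 0 := by linarith
      have a5 : t1 = (p.2 : ℂ).im := by linarith
      have a6 : s1 = (p.1 : ℂ).im := by linarith
      rw [W, f2, f4, a4, a5, a6, W]
      simp
    · exact (W_lt p h0 h1).le

lemma edge1 (p : Circle × Circle) (h : (p.1 : ℂ).im = 0) (h2 : (p.2 : ℂ).im ≠ 0) :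
    (p.1 : ℂ).re * (p.2 : ℂ).re < ((F p).1 : ℂ).re * ((F p).2 : ℂ).re := by
  obtain ⟨c1, s1, d1, t1, N, N', hN, hNp, hN', hN'p, hc1, hd1, e1, e2, e3, e4, f1, f2, f3, f4⟩ :=
    F_coords p
  have hc := circ_sq p.1
  have hd := circ_sq p.2
  rw [h] at hc
  set c := (p.1 : ℂ).re with hcdef
  set d := (p.2 : ℂ).re with hddef
  have hcc : c ^ 2 = 1 := by linarith [hc]
  -- c1 = c
  have hcc1 : c1 = c := by
    have h3 : c1 * N = c * N := by
      rw [e1, hN]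
      linear_combination (d / 5) * hcc
    exact mul_right_cancel₀ hNp.ne' h3
  subst hcc1
  rw [f1, f3]
  set D := c * d with hD
  set D1 := c * d1 with hD1
  have hD1sq : D1 ^ 2 = d1 ^ 2 := by rw [hD1, mul_pow, hcc, one_mul]
  have hDsq : D ^ 2 = d ^ 2 := by rw [hD, mul_pow, hcc, one_mul]
  have hDlt : D ^ 2 < 1 := by
    rw [hDsq]
    have : 0 < (p.2 : ℂ).im ^ 2 := by positivity
    linarith
  have hN'2 : N' = 101 / 100 + D / 5 := by
    rw [hN', hD, hcc]; ring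
  have e3' : D1 * N' = D * (101 / 100) + 1 / 5 := by
    have : D1 * N' = c * (d1 * N') := by rw [hD1]; ring
    rw [this, e3, hD, hcc]; linear_combination (1 / 5) * hcc
  have hgoal : c * (11 / 10 * d1 / Real.sqrt (1 + 21 / 100 * d1 ^ 2)) =
      11 / 10 * D1 / Real.sqrt (1 + 21 / 100 * D1 ^ 2) := by
    rw [hD1sq, hD1]; ring
  rw [hgoal]
  have hq : 0 < 1 + 21 / 100 * D1 ^ 2 := by positivity
  have hs : 0 < Real.sqrt (1 + 21 / 100 * D1 ^ 2) := by positivity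
  have hss := Real.sq_sqrt hq.le
  set S := Real.sqrt (1 + 21 / 100 * D1 ^ 2) with hS
  have hDb : -1 < D ∧ D < 1 := aux_D hDlt
  have hD1gt : D < D1 := by
    have : D * N' < D1 * N' := by
      rw [e3', hN'2]; exact aux_gt hDlt
    exact lt_of_mul_lt_mul_right this hN'p.le
  have hD1le : D1 ^ 2 ≤ 1 := by
    rw [hD1sq]
    have := sq_nonneg t1
    linarith
  by_cases hpos : 0 ≤ D1
  · have hS1 : S ≤ 11 / 10 := by
      rw [hS]
      apply Real.sqrt_le_iff.2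
      constructor
      · norm_num
      · linarith
    have : D1 ≤ 11 / 10 * D1 / S := by
      rw [le_div_iff₀ hs]; exact aux_S hpos hS1
    linarith
  · push Not at hpos
    rw [lt_div_iff₀ hs]
    -- D * S < 11/10 * D1, both negative
    have hDneg : D < 0 := by linarith
    have hB : D * (101 / 100) + 1 / 5 < 0 := by rw [← e3']; exact mul_neg_of_neg_of_pos hpos hN'p
    have h10 : (11 / 10 * D1) ^ 2 < (D * S) ^ 2 := by
      rw [mul_pow D S, hss]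
      have hsq : (N') ^ 2 * ((11 / 10 * D1) ^ 2) < (N') ^ 2 * (D ^ 2 * (1 + 21 / 100 * D1 ^ 2)) := by
        have g1 : (N') ^ 2 * ((11 / 10 * D1) ^ 2) = 121 / 100 * (D1 * N') ^ 2 := by ring
        have g2 : (N') ^ 2 * (D ^ 2 * (1 + 21 / 100 * D1 ^ 2)) =
          D ^ 2 * (N' ^ 2 + 21 / 100 * (D1 * N') ^ 2) := by ring
        rw [g1, g2, e3', hN'2]
        have g3 : D ^ 2 * ((101 / 100 + D / 5) ^ 2 + 21 / 100 * (D * (101 / 100) + 1 / 5) ^ 2) -
            121 / 100 * (D * (101 / 100) + 1 / 5) ^ 2 =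
            (1 - D ^ 2) * ((99 / 100 * D) ^ 2 - (11 / 10 * (D * (101 / 100) + 1 / 5)) ^ 2) := by ring
        have g4 : 0 < (99 / 100 * D) ^ 2 - (11 / 10 * (D * (101 / 100) + 1 / 5)) ^ 2 := by
          have : (99 / 100 * D) ^ 2 - (11 / 10 * (D * (101 / 100) + 1 / 5)) ^ 2 =
            (99 / 100 * D - 11 / 10 * (D * (101 / 100) + 1 / 5)) *
              (99 / 100 * D + 11 / 10 * (D * (101 / 100) + 1 / 5)) := by ring
          rw [this]
          apply mul_pos_of_neg_of_neg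
          · linarith
          · linarith
        have g5 : 0 < 1 - D ^ 2 := by linarith
        have g6 := mul_pos g5 g4
        linarith
      exact lt_of_mul_lt_mul_left hsq (by positivity)
    have h11 : D * S < 0 := mul_neg_of_neg_of_pos hDneg hs
    have h12 : -(11 / 10 * D1) < -(D * S) := by
      apply lt_of_pow_lt_pow_left₀ 2 (by linarith)
      rw [neg_sq, neg_sq]
      exact h10
    linarith

lemma edge2 (p : Circle × Circle) (h : (p.2 : ℂ).im = 0) (h2 : (p.1 : ℂ).im ≠ 0) :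
    ((F p).1 : ℂ).re * ((F p).2 : ℂ).re < (p.1 : ℂ).re * (p.2 : ℂ).re := by
  obtain ⟨c1, s1, d1, t1, N, N', hN, hNp, hN', hN'p, hc1, hd1, e1, e2, e3, e4, f1, f2, f3, f4⟩ :=
    F_coords p
  have hc := circ_sq p.1
  have hd := circ_sq p.2
  rw [h] at hd e4
  set c := (p.1 : ℂ).re with hcdef
  set d := (p.2 : ℂ).re with hddef
  have hdd : d ^ 2 = 1 := by linarith [hd]
  have ht1 : t1 = 0 := by
    rw [zero_mul] at e4
    exact (mul_eq_zero.1 e4).resolve_right hN'p.ne'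
  have hd1sq : d1 ^ 2 = 1 := by rw [ht1] at hd1; linarith
  have hd1d : d1 = d := by
    have h3 : d1 * N' = d * N' := by
      rw [e3, hN']
      linear_combination (-c1 / 5) * hdd
    exact mul_right_cancel₀ hN'p.ne' h3
  have hS : Real.sqrt (1 + 21 / 100 * d1 ^ 2) = 11 / 10 := by
    rw [hd1sq, show (1 : ℝ) + 21 / 100 * 1 = (11 / 10) ^ 2 by norm_num]
    exact Real.sqrt_sq (by norm_num)
  rw [f1, f3, hS, hd1d]
  have h5 : c1 * (11 / 10 * d / (11 / 10)) = c1 * d := by ring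
  rw [h5]
  have hs : 0 < (p.1 : ℂ).im ^ 2 := by positivity
  have h6 : c1 * d * N < c * d * N := by
    rw [aux_e hN e1 hc hdd]
    linarith
  exact lt_of_mul_lt_mul_right h6 hNp.le

end Pool.Agent.Helper26K1.Het
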