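import Mathlib

set_option autoImplicit false

open Complex Metric Module
open scoped Manifold ContDiff Topology

namespace Pool.Agent.Helper26K1.Het

attribute [local instance] finrank_real_complex_fact'

/-- The Moebius map `z ↦ (z + r) / (1 + r z)`. -/
noncomputable def mobC (r : ℝ) (z : ℂ) : ℂ := (z + r) / (1 + r * z)

/-- The vector `(κ x, y)` for `w = x + i y`. -/
noncomputable def stretch (κ : ℝ) (w : ℂ) : ℂ := (κ * w.re : ℝ) + (w.im : ℝ) * I

/-- The normalised linear map. -/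
noncomputable def linC (κ : ℝ) (w : ℂ) : ℂ := stretch κ w / ‖stretch κ w‖

lemma one_add_ne {r : ℝ} {z : ℂ} (hr : |r| < 1) (hz : ‖z‖ = 1) : 1 + r * z ≠ 0 := by
  intro h
  have h1 : (r : ℂ) * z = -1 := by linear_combination h
  have h2 : ‖(r : ℂ) * z‖ = 1 := by rw [h1]; simp
  rw [norm_mul, hz, mul_one, Complex.norm_real, Real.norm_eq_abs] at h2
  linarith

lemma norm_mobC {r : ℝ} {z : ℂ} (hr : |r| < 1) (hz : ‖z‖ = 1) : ‖mobC r z‖ = 1 := by
  have hne := one_add_ne hr hz
  have h0 : z ≠ 0 := by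
    intro h; rw [h] at hz; simp at hz
  have key : z + r = z * (starRingEnd ℂ) (1 + r * z) := by
    have h1 : z * (starRingEnd ℂ) z = 1 := by
      rw [Complex.mul_conj, Complex.normSq_eq_norm_sq, hz]; simp
    rw [map_add, map_mul, map_one, Complex.conj_ofReal]
    linear_combination -(r : ℂ) * h1
  rw [mobC, norm_div, key, norm_mul, Complex.norm_conj, hz, one_mul, div_self]
  exact norm_ne_zero_iff.2 hne

lemma mobC_neg_mobC {r : ℝ} {z : ℂ} (hr : |r| < 1) (hz : ‖z‖ = 1) : mobC (-r) (mobC r z) = z := by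
  have hne := one_add_ne hr hz
  have hr2 : (1 : ℂ) - r ^ 2 ≠ 0 := by
    have : (1 : ℝ) - r ^ 2 ≠ 0 := by
      have h1 := abs_lt.1 hr
      nlinarith
    exact_mod_cast this
  have hq : mobC r z * (1 + r * z) = z + r := div_mul_cancel₀ _ hne
  have h3 : 1 + ((-r : ℝ) : ℂ) * mobC r z = (1 - r ^ 2) / (1 + r * z) := by
    rw [eq_div_iff hne]; push_cast; linear_combination (-r : ℂ) * hq
  have h4 : mobC r z + ((-r : ℝ) : ℂ) = (1 - r ^ 2) * z / (1 + r * z) := by
    rw [eq_div_iff hne]; push_cast; linear_combination hq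
  rw [mobC, h3, h4]
  field_simp

lemma stretch_ne {κ : ℝ} (hκ : 0 < κ) {w : ℂ} (hw : w ≠ 0) : stretch κ w ≠ 0 := by
  intro h
  apply hw
  have h1 := congrArg Complex.re h
  have h2 := congrArg Complex.im h
  simp [stretch] at h1 h2
  exact Complex.ext (by simpa [hκ.ne'] using h1) (by simpa using h2)

lemma norm_linC {κ : ℝ} (hκ : 0 < κ) {w : ℂ} (hw : w ≠ 0) : ‖linC κ w‖ = 1 := by
  have := norm_ne_zero_iff.2 (stretch_ne hκ hw)
  rw [linC, norm_div, Complex.norm_real, norm_norm, div_self this]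

lemma stretch_smul (κ a : ℝ) (w : ℂ) : stretch κ ((a : ℂ) * w) = (a : ℂ) * stretch κ w := by
  apply Complex.ext <;> simp [stretch] <;> ring

lemma stretch_stretch (κ κ' : ℝ) (w : ℂ) : stretch κ (stretch κ' w) = stretch (κ * κ') w := by
  apply Complex.ext
  · simp [stretch]; ring
  · simp [stretch]

lemma stretch_one (w : ℂ) : stretch 1 w = w := by
  apply Complex.ext <;> simp [stretch]

lemma linC_inv {κ : ℝ} (hκ : 0 < κ) {w : ℂ} (hw : ‖w‖ = 1) : linC κ⁻¹ (linC κ w) = w := by
  have hw0 : w ≠ 0 := by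
    intro h; rw [h] at hw; simp at hw
  have h1 := norm_ne_zero_iff.2 (stretch_ne hκ hw0)
  have h1' : 0 < ‖stretch κ w‖ := norm_pos_iff.2 (stretch_ne hκ hw0)
  have h2 : linC κ w = ((‖stretch κ w‖⁻¹ : ℝ) : ℂ) * stretch κ w := by
    rw [linC, div_eq_inv_mul]; push_cast; rfl
  have h3 : stretch κ⁻¹ (linC κ w) = ((‖stretch κ w‖⁻¹ : ℝ) : ℂ) * w := by
    rw [h2, stretch_smul, stretch_stretch, inv_mul_cancel₀ hκ.ne', stretch_one]
  rw [linC, h3, norm_mul, Complex.norm_real, hw, mul_one, Real.norm_of_nonneg (by positivity)]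
  have : ((‖stretch κ w‖⁻¹ : ℝ) : ℂ) ≠ 0 := by
    have := inv_ne_zero h1
    exact_mod_cast this
  exact mul_div_cancel_left₀ _ this

/-- The Moebius map on the circle. -/
noncomputable def mob (r : ℝ) (hr : |r| < 1) (z : Circle) : Circle :=
  ⟨mobC r z, by
    change mobC r z ∈ sphere (0:ℂ) 1
    simpa using norm_mobC hr z.norm_coe⟩

/-- The normalised linear map on the circle. -/
noncomputable def lin (κ : ℝ) (hκ : 0 < κ) (w : Circle) : Circle :=
  ⟨linC κ w, by
    change linC κ w ∈ sphere (0:ℂ) 1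
    simpa using norm_linC hκ w.coe_ne_zero⟩

lemma abs_re_le (z : Circle) : |(z : ℂ).re| ≤ 1 := by
  have := Complex.abs_re_le_norm (z : ℂ)
  rwa [z.norm_coe] at this

lemma rA (w : Circle) : |-(w : ℂ).re / 10| < 1 := by
  rw [abs_div, abs_neg]
  have := abs_re_le w
  rw [abs_of_pos (by norm_num : (0:ℝ) < 10)]
  linarith

lemma rA' (w : Circle) : |(w : ℂ).re / 10| < 1 := by
  rw [abs_div]
  have := abs_re_le w
  rw [abs_of_pos (by norm_num : (0:ℝ) < 10)]
  linarith

/-- first shear -/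
noncomputable def fA (p : Circle × Circle) : Circle × Circle :=
  (mob (-(p.2 : ℂ).re / 10) (rA p.2) p.1, p.2)

noncomputable def fA' (p : Circle × Circle) : Circle × Circle :=
  (mob ((p.2 : ℂ).re / 10) (rA' p.2) p.1, p.2)

/-- second shear -/
noncomputable def fB (p : Circle × Circle) : Circle × Circle :=
  (p.1, mob ((p.1 : ℂ).re / 10) (rA' p.1) p.2)

noncomputable def fB' (p : Circle × Circle) : Circle × Circle :=
  (p.1, mob (-(p.1 : ℂ).re / 10) (rA p.1) p.2)

/-- the push -/
noncomputable def fC (p : Circle × Circle) : Circle × Circle :=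
  (p.1, lin (11 / 10) (by norm_num) p.2)

noncomputable def fC' (p : Circle × Circle) : Circle × Circle :=
  (p.1, lin (11 / 10)⁻¹ (by norm_num) p.2)

lemma fA'_fA (p : Circle × Circle) : fA' (fA p) = p := by
  ext1
  · apply Circle.ext
    have h := mobC_neg_mobC (rA p.2) p.1.norm_coe
    have e : -(-(p.2 : ℂ).re / 10) = (p.2 : ℂ).re / 10 := by ring
    rw [e] at h
    exact h
  · rfl

lemma fA_fA' (p : Circle × Circle) : fA (fA' p) = p := by
  ext1
  · apply Circle.ext
    have h := mobC_neg_mobC (rA' p.2) p.1.norm_coe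
    have e : -((p.2 : ℂ).re / 10) = -(p.2 : ℂ).re / 10 := by ring
    rw [e] at h
    exact h
  · rfl

lemma fB'_fB (p : Circle × Circle) : fB' (fB p) = p := by
  ext1
  · rfl
  · apply Circle.ext
    have h := mobC_neg_mobC (rA' p.1) p.2.norm_coe
    have e : -((p.1 : ℂ).re / 10) = -(p.1 : ℂ).re / 10 := by ring
    rw [e] at h
    exact h

lemma fB_fB' (p : Circle × Circle) : fB (fB' p) = p := by
  ext1
  · rfl
  · apply Circle.ext
    have h := mobC_neg_mobC (rA p.1) p.2.norm_coe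
    have e : -(-(p.1 : ℂ).re / 10) = (p.1 : ℂ).re / 10 := by ring
    rw [e] at h
    exact h

lemma fC'_fC (p : Circle × Circle) : fC' (fC p) = p := by
  ext1
  · rfl
  · apply Circle.ext
    exact linC_inv (by norm_num) p.2.norm_coe

lemma fC_fC' (p : Circle × Circle) : fC (fC' p) = p := by
  ext1
  · rfl
  · apply Circle.ext
    have h := linC_inv (κ := (11/10)⁻¹) (by norm_num) p.2.norm_coe
    rw [inv_inv] at h
    exact h

end Pool.Agent.Helper26K1.Het
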