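import Pool.Agent.Helper26K1.Het.Final

set_option autoImplicit false

open Complex Metric Module MeasureTheory Filter
open scoped Manifold ContDiff Topology RealInnerProductSpace
open Pool.Agent.Helper26K1.Pesin

namespace Pool.Agent.Helper26K1.Het

attribute [local instance] finrank_real_complex_fact'

/-- the sum of the inner products of the components -/
noncomputable def BB : E2 →L[ℝ] E2 →L[ℝ] ℝ :=
  (innerSL ℝ (E := EuclideanSpace ℝ (Fin 1))).bilinearComp (ContinuousLinearMap.fst ℝ _ _)
    (ContinuousLinearMap.fst ℝ _ _) +
  (innerSL ℝ (E := EuclideanSpace ℝ (Fin 1))).bilinearComp (ContinuousLinearMap.snd ℝ _ _)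
    (ContinuousLinearMap.snd ℝ _ _)

lemma BB_apply (v w : E2) : BB v w = ⟪v.1, w.1⟫ + ⟪v.2, w.2⟫ := rfl

/-- a Riemannian metric on the torus -/
noncomputable def gT : Bundle.RiemannianMetric (fun x : Circle × Circle => TangentSpace II x) where
  inner _ := BB
  symm _ v w := by
    change BB v w = BB w v
    rw [BB_apply, BB_apply, real_inner_comm, real_inner_comm v.2]
  pos _ v hv := by
    change 0 < BB v v
    rw [BB_apply, real_inner_self_eq_norm_sq, real_inner_self_eq_norm_sq]
    have h : ‖v.1‖ ≠ 0 ∨ ‖v.2‖ ≠ 0 := by
      by_contra hcon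
      push Not at hcon
      apply hv
      exact Prod.ext (norm_eq_zero.1 hcon.1) (norm_eq_zero.1 hcon.2)
    rcases h with h | h
    · have := sq_nonneg ‖v.2‖
      positivity
    · have := sq_nonneg ‖v.1‖
      positivity
  continuousAt _ := by
    have h : Continuous fun v : E2 => BB v v := by
      simp only [BB_apply]
      fun_prop
    exact h.continuousAt
  isVonNBounded _ := by
    have h : Bornology.IsVonNBounded ℝ {v : E2 | BB v v < 1} := by
      rw [NormedSpace.isVonNBounded_iff]
      refine (Metric.isBounded_closedBall (x := (0 : E2)) (r := 1)).subset ?_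
      intro v hv
      have hv' : BB v v < 1 := hv
      rw [BB_apply, real_inner_self_eq_norm_sq, real_inner_self_eq_norm_sq] at hv'
      rw [mem_closedBall_zero_iff, Prod.norm_def, max_le_iff]
      have h1 := sq_nonneg ‖v.2‖
      have h2 := sq_nonneg ‖v.1‖
      constructor
      · exact (sq_le_one_iff₀ (norm_nonneg _)).1 (by linarith)
      · exact (sq_le_one_iff₀ (norm_nonneg _)).1 (by linarith)
    exact h

end Pool.Agent.Helper26K1.Het
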