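import Pool.Agent.Helper26K1.Het.Maps

set_option autoImplicit false

open Complex Metric Module
open scoped Manifold ContDiff Topology

namespace Pool.Agent.Helper26K1.Het

attribute [local instance] finrank_real_complex_fact'

/-- the inclusion of the torus -/
def incl (p : Circle × Circle) : ℂ × ℂ := ((p.1 : ℂ), (p.2 : ℂ))

lemma contMDiff_coeC {m : ℕ∞ω} : ContMDiff (𝓡 1) 𝓘(ℝ, ℂ) m (fun z : Circle => (z : ℂ)) :=
  contMDiff_coe_sphere (E := ℂ) (n := 1)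

lemma contMDiff_incl {m : ℕ∞ω} : ContMDiff ((𝓡 1).prod (𝓡 1)) 𝓘(ℝ, ℂ × ℂ) m incl :=
  (contMDiff_coeC.comp contMDiff_fst).prodMk_space (contMDiff_coeC.comp contMDiff_snd)

lemma contMDiff_toCircle {m : ℕ∞ω} {f : Circle × Circle → Circle}
    (h : ContMDiff ((𝓡 1).prod (𝓡 1)) 𝓘(ℝ, ℂ) m (fun p => (f p : ℂ))) :
    ContMDiff ((𝓡 1).prod (𝓡 1)) (𝓡 1) m f := by
  have h2 : ∀ p, (f p : ℂ) ∈ sphere (0:ℂ) 1 := fun p => (f p).2
  exact ContMDiff.codRestrict_sphere h h2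

/-- ambient formula of the Moebius step -/
noncomputable def gM (a : ℝ) (q : ℂ × ℂ) : ℂ :=
  (q.1 + ((a * q.2.re : ℝ) : ℂ)) / (1 + ((a * q.2.re : ℝ) : ℂ) * q.1)

lemma contDiffAt_gM {a : ℝ} {q : ℂ × ℂ} (hq : 1 + ((a * q.2.re : ℝ) : ℂ) * q.1 ≠ 0) :
    ContDiffAt ℝ ω (gM a) q := by
  have h1 : ContDiff ℝ ω (fun q : ℂ × ℂ => ((a * q.2.re : ℝ) : ℂ)) := by
    have := Complex.ofRealCLM.contDiff (n := ω)
    refine this.comp ?_
    exact contDiff_const.mul (Complex.reCLM.contDiff.comp contDiff_snd)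
  have h2 : ContDiffAt ℝ ω (fun q : ℂ × ℂ => q.1 + ((a * q.2.re : ℝ) : ℂ)) q :=
    (contDiff_fst.add h1).contDiffAt
  have h3 : ContDiffAt ℝ ω (fun q : ℂ × ℂ => 1 + ((a * q.2.re : ℝ) : ℂ) * q.1) q :=
    (contDiff_const.add (h1.mul contDiff_fst)).contDiffAt
  have h4 := h2.mul (h3.inv hq)
  exact h4

/-- ambient formula of the push -/
noncomputable def gL (κ : ℝ) (w : ℂ) : ℂ := linC κ w

lemma contDiffAt_gL {κ : ℝ} (hκ : 0 < κ) {w : ℂ} (hw : w ≠ 0) : ContDiffAt ℝ ω (gL κ) w := by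
  have hs : ContDiff ℝ ω (stretch κ) := by
    unfold stretch
    have h1 : ContDiff ℝ ω (fun w : ℂ => ((κ * w.re : ℝ) : ℂ)) := by
      refine (Complex.ofRealCLM.contDiff (n := ω)).comp ?_
      exact contDiff_const.mul Complex.reCLM.contDiff
    have h2 : ContDiff ℝ ω (fun w : ℂ => ((w.im : ℝ) : ℂ) * I) := by
      refine ContDiff.mul ?_ contDiff_const
      exact (Complex.ofRealCLM.contDiff (n := ω)).comp Complex.imCLM.contDiff
    exact h1.add h2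
  have hne := stretch_ne hκ hw
  have hn : ContDiffAt ℝ ω (fun w : ℂ => ‖stretch κ w‖) w := hs.contDiffAt.norm ℝ hne
  have hn2 : ContDiffAt ℝ ω (fun w : ℂ => ((‖stretch κ w‖ : ℝ) : ℂ)) w :=
    (Complex.ofRealCLM.contDiff (n := ω)).contDiffAt.comp w hn
  have h5 : ((‖stretch κ w‖ : ℝ) : ℂ) ≠ 0 := by simpa using hne
  have h4 := hs.contDiffAt.mul (hn2.inv h5)
  exact h4

lemma smooth_mob_fst (a : ℝ) (ha : ∀ w : Circle, |a * (w : ℂ).re| < 1) :
    ContMDiff ((𝓡 1).prod (𝓡 1)) (𝓡 1) ω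
      (fun p : Circle × Circle => mob (a * (p.2 : ℂ).re) (ha p.2) p.1) := by
  apply contMDiff_toCircle
  intro p
  exact ContDiffAt.comp_contMDiffAt (g := gM a) (f := incl)
    (contDiffAt_gM (one_add_ne (ha p.2) p.1.norm_coe)) (contMDiff_incl p)

lemma smooth_mob_snd (a : ℝ) (ha : ∀ w : Circle, |a * (w : ℂ).re| < 1) :
    ContMDiff ((𝓡 1).prod (𝓡 1)) (𝓡 1) ω
      (fun p : Circle × Circle => mob (a * (p.1 : ℂ).re) (ha p.1) p.2) :=
  (smooth_mob_fst a ha).comp (contMDiff_snd.prodMk contMDiff_fst)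

lemma smooth_lin (κ : ℝ) (hκ : 0 < κ) :
    ContMDiff ((𝓡 1).prod (𝓡 1)) (𝓡 1) ω (fun p : Circle × Circle => lin κ hκ p.2) := by
  apply contMDiff_toCircle
  intro p
  exact ContDiffAt.comp_contMDiffAt (g := gL κ) (f := fun p : Circle × Circle => (p.2 : ℂ))
    (contDiffAt_gL hκ p.2.coe_ne_zero) ((contMDiff_coeC.comp contMDiff_snd) p)

lemma smooth_fA : ContMDiff ((𝓡 1).prod (𝓡 1)) ((𝓡 1).prod (𝓡 1)) ω fA := by
  refine ContMDiff.prodMk ?_ contMDiff_snd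
  have h : ∀ w : Circle, |(-1/10 : ℝ) * (w : ℂ).re| < 1 := fun w => by
    have := rA w; rwa [show -(w:ℂ).re/10 = (-1/10 : ℝ) * (w : ℂ).re by ring] at this
  refine (smooth_mob_fst (-1/10) h).congr fun p => ?_
  apply Circle.ext
  change mobC _ _ = mobC _ _
  congr 1; ring

lemma smooth_fA' : ContMDiff ((𝓡 1).prod (𝓡 1)) ((𝓡 1).prod (𝓡 1)) ω fA' := by
  refine ContMDiff.prodMk ?_ contMDiff_snd
  have h : ∀ w : Circle, |(1/10 : ℝ) * (w : ℂ).re| < 1 := fun w => by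
    have := rA' w; rwa [show (w:ℂ).re/10 = (1/10 : ℝ) * (w : ℂ).re by ring] at this
  refine (smooth_mob_fst (1/10) h).congr fun p => ?_
  apply Circle.ext
  change mobC _ _ = mobC _ _
  congr 1; ring

lemma smooth_fB : ContMDiff ((𝓡 1).prod (𝓡 1)) ((𝓡 1).prod (𝓡 1)) ω fB := by
  refine ContMDiff.prodMk contMDiff_fst ?_
  have h : ∀ w : Circle, |(1/10 : ℝ) * (w : ℂ).re| < 1 := fun w => by
    have := rA' w; rwa [show (w:ℂ).re/10 = (1/10 : ℝ) * (w : ℂ).re by ring] at this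
  refine (smooth_mob_snd (1/10) h).congr fun p => ?_
  apply Circle.ext
  change mobC _ _ = mobC _ _
  congr 1; ring

lemma smooth_fB' : ContMDiff ((𝓡 1).prod (𝓡 1)) ((𝓡 1).prod (𝓡 1)) ω fB' := by
  refine ContMDiff.prodMk contMDiff_fst ?_
  have h : ∀ w : Circle, |(-1/10 : ℝ) * (w : ℂ).re| < 1 := fun w => by
    have := rA w; rwa [show -(w:ℂ).re/10 = (-1/10 : ℝ) * (w : ℂ).re by ring] at this
  refine (smooth_mob_snd (-1/10) h).congr fun p => ?_
  apply Circle.ext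
  change mobC _ _ = mobC _ _
  congr 1; ring

lemma smooth_fC : ContMDiff ((𝓡 1).prod (𝓡 1)) ((𝓡 1).prod (𝓡 1)) ω fC :=
  ContMDiff.prodMk contMDiff_fst (smooth_lin _ _)

lemma smooth_fC' : ContMDiff ((𝓡 1).prod (𝓡 1)) ((𝓡 1).prod (𝓡 1)) ω fC' :=
  ContMDiff.prodMk contMDiff_fst (smooth_lin _ _)

/-- first shear as a diffeomorphism -/
noncomputable def dA : Diffeomorph ((𝓡 1).prod (𝓡 1)) ((𝓡 1).prod (𝓡 1)) (Circle × Circle)
    (Circle × Circle) ω where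
  toFun := fA
  invFun := fA'
  left_inv := fA'_fA
  right_inv := fA_fA'
  contMDiff_toFun := smooth_fA
  contMDiff_invFun := smooth_fA'

noncomputable def dB : Diffeomorph ((𝓡 1).prod (𝓡 1)) ((𝓡 1).prod (𝓡 1)) (Circle × Circle)
    (Circle × Circle) ω where
  toFun := fB
  invFun := fB'
  left_inv := fB'_fB
  right_inv := fB_fB'
  contMDiff_toFun := smooth_fB
  contMDiff_invFun := smooth_fB'

noncomputable def dC : Diffeomorph ((𝓡 1).prod (𝓡 1)) ((𝓡 1).prod (𝓡 1)) (Circle × Circle)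
    (Circle × Circle) ω where
  toFun := fC
  invFun := fC'
  left_inv := fC'_fC
  right_inv := fC_fC'
  contMDiff_toFun := smooth_fC
  contMDiff_invFun := smooth_fC'

/-- The diffeomorphism of the torus. -/
noncomputable def F : Diffeomorph ((𝓡 1).prod (𝓡 1)) ((𝓡 1).prod (𝓡 1)) (Circle × Circle)
    (Circle × Circle) ω := (dA.trans dB).trans dC

lemma F_apply (p : Circle × Circle) : F p = fC (fB (fA p)) := rfl

end Pool.Agent.Helper26K1.Het
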