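import Pool.Agent.Helper26K1.Het.Expo2

set_option autoImplicit false

open Complex Metric Module MeasureTheory Filter
open scoped Manifold ContDiff Topology
open Pool.Agent.Helper26K1.Pesin

namespace Pool.Agent.Helper26K1.Het

attribute [local instance] finrank_real_complex_fact'

lemma F_eq : (F : Circle × Circle → Circle × Circle) = fC ∘ (fB ∘ fA) := rfl

lemma DF_comp {p : Circle × Circle} (ha : fA p = p) (hb : fB p = p) (u : E2) :
    D F p u = D fC p (D fB p (D fA p u)) := by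
  have h1 := HasMFDerivAt.comp p (hasMFDerivAt_D' smooth_fB p (fA p) ha) (hasMFDerivAt_D smooth_fA p)
  have h2 := HasMFDerivAt.comp p (hasMFDerivAt_D' smooth_fC p ((fB ∘ fA) p)
    (by rw [Function.comp_apply, ha, hb])) h1
  have h3 : D F p = (D fC p).comp ((D fB p).comp (D fA p)) := h2.mfderiv
  rw [h3]; rfl

lemma DF_symm {p : Circle × Circle} (hp : F p = p) (u : E2) :
    D F.symm p (D F p u) = u := by
  have h1 := HasMFDerivAt.comp p (hasMFDerivAt_D' (G := F.symm) F.symm.contMDiff p (F p) hp)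
    (hasMFDerivAt_D (G := F) F.contMDiff p)
  have h2 : (F.symm : Circle × Circle → Circle × Circle) ∘ F = id := by
    funext q; exact F.symm_apply_apply q
  rw [h2] at h1
  have h3 := h1.mfderiv
  have h4 : HasMFDerivAt II II (id : Circle × Circle → Circle × Circle) p
    (ContinuousLinearMap.id ℝ E2) := hasMFDerivAt_id p
  have h5 := h4.mfderiv
  rw [h5] at h3
  have h6 := congrArg (fun L : E2 →L[ℝ] E2 => L u) h3
  exact h6.symm

/-- eigenvalues at the saddles -/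
noncomputable def lam (p : Circle × Circle) : ℝ := (99/100) / (1 - sgS p / 10) ^ 2
noncomputable def mu (p : Circle × Circle) : ℝ := 10 / 11 * ((99/100) / (1 + sgS p / 10) ^ 2)

lemma DF_sad {p : Circle × Circle} (h : IsSad p) (x : ℝ × ℝ) :
    D F p (P p x) = P p (lam p * x.1, mu p * x.2) := by
  rw [DF_comp (fA_sad h) (fB_sad h), DA_sad h, DB_sad h, DC_sad h]
  congr 1
  ext1
  · rfl
  · simp only [mu]; ring

lemma sg_sad {p : Circle × Circle} (h : IsSad p) : sgS p = 1 ∨ sgS p = -1 := by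
  obtain ⟨-, -, h3, h4⟩ := sad_vals h
  apply pm_one
  rw [sgS, mul_pow, h3, h4, one_mul]

lemma sg_cen {p : Circle × Circle} (h : IsCen p) : sgC p = 1 ∨ sgC p = -1 := by
  obtain ⟨-, -, h3, h4⟩ := cen_vals h
  apply pm_one
  rw [sgC, mul_pow, h3, h4, one_mul]

lemma lam_mu {p : Circle × Circle} (h : IsSad p) :
    (lam p = 11 / 9 ∧ mu p = 90 / 121) ∨ (lam p = 9 / 11 ∧ mu p = 10 / 9) := by
  rcases sg_sad h with h | h
  · left; rw [lam, mu, h]; norm_num
  · right; rw [lam, mu, h]; norm_num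

/-- the linear map at the centres -/
noncomputable def kc (s : ℝ) (x : ℝ × ℝ) : ℝ × ℝ :=
  (x.1 - s / 5 * x.2, 11 / 10 * (x.2 + s / 5 * (x.1 - s / 5 * x.2)))

/-- its inverse -/
noncomputable def kc' (s : ℝ) (x : ℝ × ℝ) : ℝ × ℝ :=
  (x.1 + s / 5 * (10 / 11 * x.2 - s / 5 * x.1), 10 / 11 * x.2 - s / 5 * x.1)

/-- the invariant quadratic form -/
noncomputable def Qf (s : ℝ) (x : ℝ × ℝ) : ℝ :=
  11 / 10 * x.1 ^ 2 + 7 / 25 * s * x.1 * x.2 + x.2 ^ 2

lemma kc_kc' (s : ℝ) (x : ℝ × ℝ) : kc s (kc' s x) = x := by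
  ext
  · simp only [kc, kc']; ring
  · simp only [kc, kc']; ring

lemma Qf_kc {s : ℝ} (hs : s ^ 2 = 1) (x : ℝ × ℝ) : Qf s (kc s x) = 11 / 10 * Qf s x := by
  simp only [Qf, kc]
  have h3 : s ^ 3 = s := by rw [pow_succ, hs, one_mul]
  have h4 : s ^ 4 = 1 := by rw [show s ^ 4 = (s ^ 2) ^ 2 by ring, hs, one_pow]
  ring_nf
  simp only [hs, h3, h4]
  ring

lemma Qf_kc' {s : ℝ} (hs : s ^ 2 = 1) (x : ℝ × ℝ) : Qf s (kc' s x) = (11 / 10)⁻¹ * Qf s x := by
  have := Qf_kc hs (kc' s x)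
  rw [kc_kc'] at this
  rw [this]; ring

lemma Qf_iter {s : ℝ} {k : ℝ × ℝ → ℝ × ℝ} {κ : ℝ} (hk : ∀ x, Qf s (k x) = κ * Qf s x) (m : ℕ)
    (x : ℝ × ℝ) : Qf s (k^[m] x) = κ ^ m * Qf s x := by
  induction m generalizing x with
  | zero => simp
  | succ m ih => rw [Function.iterate_succ_apply, ih, hk]; ring

lemma Qf_lower {s : ℝ} (hs : s ^ 2 = 1) (x : ℝ × ℝ) :
    1 / 2 * (x.1 ^ 2 + x.2 ^ 2) ≤ Qf s x := by
  rw [Qf]
  have e : 11 / 10 * x.1 ^ 2 + 7 / 25 * s * x.1 * x.2 + x.2 ^ 2 - 1 / 2 * (x.1 ^ 2 + x.2 ^ 2) =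
    (7 / 25 * s * x.1 + 1 / 2 * x.2) ^ 2 + (1 / 4) * x.2 ^ 2 +
      (3 / 5 - 49 / 625 * s ^ 2) * x.1 ^ 2 := by ring
  have h2 := sq_nonneg (7 / 25 * s * x.1 + 1 / 2 * x.2)
  have h3 := sq_nonneg x.1
  have h4 := sq_nonneg x.2
  rw [hs] at e
  have h5 : 0 ≤ (3 / 5 - 49 / 625 * (1:ℝ)) * x.1 ^ 2 := by
    apply mul_nonneg _ h3; norm_num
  linarith

lemma Qf_upper {s : ℝ} (hs : s ^ 2 = 1) (x : ℝ × ℝ) :
    Qf s x ≤ 2 * (x.1 ^ 2 + x.2 ^ 2) := by
  rw [Qf]
  have e : 2 * (x.1 ^ 2 + x.2 ^ 2) - (11 / 10 * x.1 ^ 2 + 7 / 25 * s * x.1 * x.2 + x.2 ^ 2) =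
    (7 / 25 * s * x.1 - 1 / 2 * x.2) ^ 2 + (3 / 4) * x.2 ^ 2 +
      (9 / 10 - 49 / 625 * s ^ 2) * x.1 ^ 2 := by ring
  have h2 := sq_nonneg (7 / 25 * s * x.1 - 1 / 2 * x.2)
  have h3 := sq_nonneg x.1
  have h4 := sq_nonneg x.2
  rw [hs] at e
  have h5 : 0 ≤ (9 / 10 - 49 / 625 * (1:ℝ)) * x.1 ^ 2 := by
    apply mul_nonneg _ h3; norm_num
  linarith

lemma DF_cen {p : Circle × Circle} (h : IsCen p) (x : ℝ × ℝ) :
    D F p (P p x) = P p (kc (sgC p) x) := by
  rw [DF_comp (fA_cen h) (fB_cen h), DA_cen h, DB_cen h, DC_cen h]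
  rfl

lemma DFs_cen {p : Circle × Circle} (h : IsCen p) (x : ℝ × ℝ) :
    D F.symm p (P p x) = P p (kc' (sgC p) x) := by
  have h1 := DF_symm (F_fix (Or.inr h)) (P p (kc' (sgC p) x))
  rw [DF_cen h, kc_kc'] at h1
  exact h1

/-- an inner product on the plane is comparable with the standard one -/
lemma form_bounds (g : Bundle.RiemannianMetric (fun x : Circle × Circle => TangentSpace II x))
    (p : Circle × Circle) : ∃ c1 c2 : ℝ, 0 < c1 ∧ 0 < c2 ∧ ∀ x : ℝ × ℝ,
      c1 * (x.1 ^ 2 + x.2 ^ 2) ≤ len II g p (show TangentSpace II p from P p x) ^ 2 ∧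
      len II g p (show TangentSpace II p from P p x) ^ 2 ≤ c2 * (x.1 ^ 2 + x.2 ^ 2) := by
  set e1 : TangentSpace II p := P p (1, 0) with he1
  set e2 : TangentSpace II p := P p (0, 1) with he2
  set α := g.inner p e1 e1 with hα
  set β := g.inner p e1 e2 with hβ
  set γ := g.inner p e2 e2 with hγ
  have hform : ∀ x : ℝ × ℝ, len II g p (show TangentSpace II p from P p x) ^ 2 =
      α * x.1 ^ 2 + 2 * β * x.1 * x.2 + γ * x.2 ^ 2 := by
    intro x
    have hx : (show TangentSpace II p from P p x) = x.1 • e1 + x.2 • e2 := by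
      change P p x = x.1 • P p (1, 0) + x.2 • P p (0, 1)
      rw [← map_smul, ← map_smul, ← map_add]
      congr 1
      ext <;> simp
    rw [hx, len, Real.sq_sqrt (inner_self_nonneg' g p _)]
    simp only [map_add, map_smul, _root_.add_apply, _root_.smul_apply, smul_eq_mul]
    rw [g.symm p e2 e1]
    ring
  have hne : ∀ x : ℝ × ℝ, x ≠ 0 → 0 < α * x.1 ^ 2 + 2 * β * x.1 * x.2 + γ * x.2 ^ 2 := by
    intro x hx
    rw [← hform]
    have : (show TangentSpace II p from P p x) ≠ 0 := by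
      intro h0
      apply hx
      apply P_injective p
      rw [map_zero]
      exact h0
    have := len_pos g p this
    positivity
  have hα0 : 0 < α := by
    have := hne (1, 0) (by simp)
    simpa using this
  have hγ0 : 0 < γ := by
    have := hne (0, 1) (by simp)
    simpa using this
  have hdet : 0 < α * γ - β ^ 2 := by
    have h1 := hne (β, -α) (by
      intro h
      have := congrArg Prod.snd h
      simp at this
      exact hα0.ne' this)
    have h2 : α * (β, -α).1 ^ 2 + 2 * β * (β, -α).1 * (β, -α).2 + γ * (β, -α).2 ^ 2 =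
      α * (α * γ - β ^ 2) := by simp only; ring
    rw [h2] at h1
    exact (mul_pos_iff_of_pos_left hα0).1 h1
  refine ⟨(α * γ - β ^ 2) / (α + γ), α + γ, by positivity, by positivity, fun x => ?_⟩
  rw [hform]
  have hid : (α + γ) * (α * x.1 ^ 2 + 2 * β * x.1 * x.2 + γ * x.2 ^ 2) -
      (α * γ - β ^ 2) * (x.1 ^ 2 + x.2 ^ 2) =
      (α * x.1 + β * x.2) ^ 2 + (β * x.1 + γ * x.2) ^ 2 := by ring
  constructor
  · rw [div_mul_eq_mul_div, div_le_iff₀ (by positivity)]
    nlinarith [sq_nonneg (α * x.1 + β * x.2), sq_nonneg (β * x.1 + γ * x.2)]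
  · have hid2 : (α + γ) * (x.1 ^ 2 + x.2 ^ 2) - (α * x.1 ^ 2 + 2 * β * x.1 * x.2 + γ * x.2 ^ 2) =
      γ * x.1 ^ 2 - 2 * β * x.1 * x.2 + α * x.2 ^ 2 := by ring
    have h5 : 0 ≤ γ * x.1 ^ 2 - 2 * β * x.1 * x.2 + α * x.2 ^ 2 := by
      by_cases hx : x = 0
      · rw [hx]; simp
      · have := hne (-x.2, x.1) (by
          intro h
          apply hx
          have h1 := congrArg Prod.fst h
          have h2 := congrArg Prod.snd h
          simp at h1 h2
          exact Prod.ext h2 h1)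
        simp only at this
        nlinarith
    linarith

/-- growth at the centres -/
lemma growth_conf (g : Bundle.RiemannianMetric (fun x : Circle × Circle => TangentSpace II x))
    {G : Circle × Circle → Circle × Circle} (hG : ContMDiff II II ω G) (p : Circle × Circle)
    (hp : G p = p) {s κ : ℝ} (hs : s ^ 2 = 1) (hκ : 0 < κ) {k : ℝ × ℝ → ℝ × ℝ}
    (hk : ∀ x, D G p (P p x) = P p (k x)) (hQ : ∀ x, Qf s (k x) = κ * Qf s x)
    {u : TangentSpace II p} (hu : u ≠ 0) :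
    Tendsto (fun m : ℕ => (1 / (m : ℝ)) *
      Real.log (len II g (G^[m] p) (mfderiv II II G^[m] p u))) atTop (𝓝 (Real.log κ / 2)) := by
  obtain ⟨x, rfl⟩ := P_surjective p u
  obtain ⟨c1, c2, hc1, hc2, hb⟩ := form_bounds g p
  have hx : x ≠ 0 := by
    rintro rfl
    apply hu
    exact map_zero (P p)
  have hxx : 0 < x.1 ^ 2 + x.2 ^ 2 := by
    by_contra hcon
    push Not at hcon
    have a := sq_nonneg x.1
    have b := sq_nonneg x.2
    apply hx
    ext
    · exact pow_eq_zero_iff two_ne_zero |>.1 (by linarith)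
    · exact pow_eq_zero_iff two_ne_zero |>.1 (by linarith)
  have hQx : 0 < Qf s x := lt_of_lt_of_le (by positivity) (Qf_lower hs x)
  have e : ∀ m, len II g (G^[m] p) (mfderiv II II G^[m] p (P p x)) =
      len II g p (show TangentSpace II p from P p (k^[m] x)) := by
    intro m
    rw [len_iter g p hp m (P p x), D_iter_P hG p hp hk m x]
  have h1 : ∀ m, c1 / 2 * Qf s x * κ ^ m ≤
      len II g (G^[m] p) (mfderiv II II G^[m] p (P p x)) ^ 2 := by
    intro m
    rw [e]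
    refine le_trans ?_ (hb _).1
    have := Qf_upper hs (k^[m] x)
    rw [Qf_iter hQ] at this
    calc c1 / 2 * Qf s x * κ ^ m = c1 / 2 * (κ ^ m * Qf s x) := by ring
      _ ≤ c1 / 2 * (2 * ((k^[m] x).1 ^ 2 + (k^[m] x).2 ^ 2)) :=
        mul_le_mul_of_nonneg_left this (by positivity)
      _ = _ := by ring
  have h2 : ∀ m, len II g (G^[m] p) (mfderiv II II G^[m] p (P p x)) ^ 2 ≤
      2 * c2 * Qf s x * κ ^ m := by
    intro m
    rw [e]
    refine (hb _).2.trans ?_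
    have := Qf_lower hs (k^[m] x)
    rw [Qf_iter hQ] at this
    calc c2 * ((k^[m] x).1 ^ 2 + (k^[m] x).2 ^ 2) =
        2 * c2 * (1 / 2 * ((k^[m] x).1 ^ 2 + (k^[m] x).2 ^ 2)) := by ring
      _ ≤ 2 * c2 * (κ ^ m * Qf s x) := mul_le_mul_of_nonneg_left this (by positivity)
      _ = _ := by ring
  have h3 := tendsto_log_geom (by positivity) hκ h1 h2
  have h4 := h3.div_const 2
  refine h4.congr fun m => ?_
  rw [Real.log_pow]
  push_cast
  ring

end Pool.Agent.Helper26K1.Het
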