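import Pool.Agent.Helper26K1.Het.Deriv
import Pool.Agent.Helper26K1.Het.Ent

set_option autoImplicit false

open Complex Metric Module MeasureTheory
open scoped Manifold ContDiff Topology
open Pool.Agent.Helper26K1.Pesin

namespace Pool.Agent.Helper26K1.Het

attribute [local instance] finrank_real_complex_fact'

/-- the fixed points -/
def K8 : Set (Circle × Circle) := {p | IsSad p ∨ IsCen p}

lemma F_fix {p : Circle × Circle} (h : p ∈ K8) : F p = p := by
  rw [F_apply]
  rcases h with h | h
  · rw [fA_sad h, fB_sad h, fC_sad h]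
  · rw [fA_cen h, fB_cen h, fC_cen h]

lemma pm_one {x : ℝ} (h : x ^ 2 = 1) : x = 1 ∨ x = -1 := by
  have : (x - 1) * (x + 1) = 0 := by linear_combination h
  rcases mul_eq_zero.1 this with h | h
  · left; linarith
  · right; linarith

lemma finite_axis : {z : Circle | (z : ℂ).im = 0 ∨ (z : ℂ).re = 0}.Finite := by
  have h : ({1, -1, I, -I} : Set ℂ).Finite := by simp
  refine Set.Finite.of_injOn (f := fun z : Circle => (z : ℂ)) ?_ Circle.coe_injective.injOn h
  intro z hz
  have hc := circ_sq z
  simp only [Set.mem_insert_iff, Set.mem_singleton_iff]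
  rcases hz with hz | hz
  · rw [hz] at hc
    have h1 : (z : ℂ).re ^ 2 = 1 := by linarith
    rcases pm_one h1 with h2 | h2
    · left; exact Complex.ext (by simpa using h2) (by simpa using hz)
    · right; left; exact Complex.ext (by simpa using h2) (by simpa using hz)
  · rw [hz] at hc
    have h1 : (z : ℂ).im ^ 2 = 1 := by linarith
    rcases pm_one h1 with h2 | h2
    · right; right; left; exact Complex.ext (by simpa using hz) (by simpa using h2)
    · right; right; right; exact Complex.ext (by simpa using hz) (by simpa using h2)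

lemma finite_K8 : K8.Finite := by
  refine (finite_axis.prod finite_axis).subset ?_
  rintro p (h | h)
  · exact ⟨Or.inl h.1, Or.inl h.2⟩
  · exact ⟨Or.inr h.1, Or.inr h.2⟩

lemma cont_re1 : Continuous fun p : Circle × Circle => (p.1 : ℂ).re :=
  Complex.continuous_re.comp (continuous_subtype_val.comp continuous_fst)
lemma cont_re2 : Continuous fun p : Circle × Circle => (p.2 : ℂ).re :=
  Complex.continuous_re.comp (continuous_subtype_val.comp continuous_snd)
lemma cont_im1 : Continuous fun p : Circle × Circle => (p.1 : ℂ).im :=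
  Complex.continuous_im.comp (continuous_subtype_val.comp continuous_fst)
lemma cont_im2 : Continuous fun p : Circle × Circle => (p.2 : ℂ).im :=
  Complex.continuous_im.comp (continuous_subtype_val.comp continuous_snd)

lemma abs_im_le (z : Circle) : |(z : ℂ).im| ≤ 1 := by
  have := Complex.abs_im_le_norm (z : ℂ)
  rwa [z.norm_coe] at this

lemma abs_prod_le (p : Circle × Circle) : |(p.1 : ℂ).re * (p.2 : ℂ).re| ≤ 1 := by
  rw [abs_mul]; exact mul_le_one₀ (abs_re_le _) (abs_nonneg _) (abs_re_le _)

variable [MeasurableSpace (Circle × Circle)] [BorelSpace (Circle × Circle)]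

/-- every invariant probability measure is carried by the eight fixed points -/
lemma carried (ρ : Measure (Circle × Circle)) [IsProbabilityMeasure ρ]
    (hρ : MeasurePreserving F ρ ρ) : ∀ᵐ p ∂ρ, p ∈ K8 := by
  -- first: the Lyapunov function
  have hWm : Measurable W := ((cont_im1.mul cont_im2).pow 2).measurable
  have hWb : ∀ p, |W p| ≤ 1 := by
    intro p
    rw [W, abs_pow, abs_mul]
    exact pow_le_one₀ (by positivity) (mul_le_one₀ (abs_im_le _) (abs_nonneg _) (abs_im_le _))
  have h1 := ae_eq_of_le ρ hρ hWm hWb W_le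
  -- second: the circles `im z = 0`
  have hS1 : MeasurableSet {p : Circle × Circle | (p.1 : ℂ).im = 0} :=
    (isClosed_eq cont_im1 continuous_const).measurableSet
  have hS2 : MeasurableSet {p : Circle × Circle | (p.2 : ℂ).im = 0} :=
    (isClosed_eq cont_im2 continuous_const).measurableSet
  have hc : Measurable fun p : Circle × Circle => (p.1 : ℂ).re * (p.2 : ℂ).re :=
    (cont_re1.mul cont_re2).measurable
  classical
  let u1 : Circle × Circle → ℝ := fun p =>
    if (p.1 : ℂ).im = 0 then -((p.1 : ℂ).re * (p.2 : ℂ).re) else 0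
  let u2 : Circle × Circle → ℝ := fun p =>
    if (p.2 : ℂ).im = 0 then (p.1 : ℂ).re * (p.2 : ℂ).re else 0
  have hu1m : Measurable u1 := Measurable.ite hS1 hc.neg measurable_const
  have hu2m : Measurable u2 := Measurable.ite hS2 hc measurable_const
  have hu1b : ∀ p, |u1 p| ≤ 1 := by
    intro p
    by_cases h : (p.1 : ℂ).im = 0
    · have : u1 p = -((p.1 : ℂ).re * (p.2 : ℂ).re) := if_pos h
      rw [this, abs_neg]; exact abs_prod_le p
    · have : u1 p = 0 := if_neg h
      rw [this]; simp
  have hu2b : ∀ p, |u2 p| ≤ 1 := by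
    intro p
    by_cases h : (p.2 : ℂ).im = 0
    · have : u2 p = (p.1 : ℂ).re * (p.2 : ℂ).re := if_pos h
      rw [this]; exact abs_prod_le p
    · have : u2 p = 0 := if_neg h
      rw [this]; simp
  have e1 : ∀ p : Circle × Circle, (p.1 : ℂ).im = 0 → u1 (F p) < u1 p ∨ (p.2 : ℂ).im = 0 := by
    intro p h
    by_cases h2 : (p.2 : ℂ).im = 0
    · exact Or.inr h2
    · left
      have a1 : u1 p = -((p.1 : ℂ).re * (p.2 : ℂ).re) := if_pos h
      have a2 : u1 (F p) = -(((F p).1 : ℂ).re * ((F p).2 : ℂ).re) :=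
        if_pos ((F_im1 p).2 h)
      rw [a1, a2]
      exact neg_lt_neg (edge1 p h h2)
  have e2 : ∀ p : Circle × Circle, (p.2 : ℂ).im = 0 → u2 (F p) < u2 p ∨ (p.1 : ℂ).im = 0 := by
    intro p h
    by_cases h2 : (p.1 : ℂ).im = 0
    · exact Or.inr h2
    · left
      have a1 : u2 p = (p.1 : ℂ).re * (p.2 : ℂ).re := if_pos h
      have a2 : u2 (F p) = ((F p).1 : ℂ).re * ((F p).2 : ℂ).re :=
        if_pos ((F_im2 p).2 h)
      rw [a1, a2]
      exact edge2 p h h2
  have l1 : ∀ p, u1 (F p) ≤ u1 p := by
    intro p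
    by_cases h : (p.1 : ℂ).im = 0
    · rcases e1 p h with h2 | h2
      · exact h2.le
      · rw [F_fix (Or.inl ⟨h, h2⟩)]
    · have a1 : u1 p = 0 := if_neg h
      have a2 : u1 (F p) = 0 := if_neg (fun hh => h ((F_im1 p).1 hh))
      rw [a1, a2]
  have l2 : ∀ p, u2 (F p) ≤ u2 p := by
    intro p
    by_cases h : (p.2 : ℂ).im = 0
    · rcases e2 p h with h2 | h2
      · exact h2.le
      · rw [F_fix (Or.inl ⟨h2, h⟩)]
    · have a1 : u2 p = 0 := if_neg h
      have a2 : u2 (F p) = 0 := if_neg (fun hh => h ((F_im2 p).1 hh))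
      rw [a1, a2]
  have h2 := ae_eq_of_le ρ hρ hu1m hu1b l1
  have h3 := ae_eq_of_le ρ hρ hu2m hu2b l2
  filter_upwards [h1, h2, h3] with p g1 g2 g3
  by_cases hcen : (p.1 : ℂ).re = 0 ∧ (p.2 : ℂ).re = 0
  · exact Or.inr hcen
  · left
    by_cases hW : W p = 0
    · rw [W, sq_eq_zero_iff, mul_eq_zero] at hW
      rcases hW with h | h
      · rcases e1 p h with h' | h'
        · exact absurd g2 h'.ne
        · exact ⟨h, h'⟩
      · rcases e2 p h with h' | h'
        · exact absurd g3 h'.ne
        · exact ⟨h', h⟩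
    · exact absurd g1 (W_lt p hW hcen).ne

end Pool.Agent.Helper26K1.Het
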