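import Pool.Agent.Helper26K1.Het.Curves

set_option autoImplicit false

open Complex Metric Module MeasureTheory
open scoped Manifold ContDiff Topology

namespace Pool.Agent.Helper26K1.Het

attribute [local instance] finrank_real_complex_fact'

/-- model with corners of the torus -/
noncomputable abbrev II := (𝓡 1).prod (𝓡 1)

/-- model vector space of the torus -/
abbrev E2 := EuclideanSpace ℝ (Fin 1) × EuclideanSpace ℝ (Fin 1)

/-- the covering map centred at `p` -/
noncomputable def wrap (p : Circle × Circle) (x : ℝ × ℝ) : Circle × Circle :=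
  (p.1 * Circle.exp x.1, p.2 * Circle.exp x.2)

lemma wrap_zero (p : Circle × Circle) : wrap p 0 = p := by
  ext <;> simp [wrap]

lemma contMDiff_wrap (p : Circle × Circle) : ContMDiff 𝓘(ℝ, ℝ × ℝ) II ω (wrap p) := by
  have h1 : ContMDiff 𝓘(ℝ, ℝ × ℝ) 𝓘(ℝ, ℝ) ω (fun x : ℝ × ℝ => x.1) := contDiff_fst.contMDiff
  have h2 : ContMDiff 𝓘(ℝ, ℝ × ℝ) 𝓘(ℝ, ℝ) ω (fun x : ℝ × ℝ => x.2) := contDiff_snd.contMDiff
  refine ContMDiff.prodMk ?_ ?_
  · exact contMDiff_const.mul (contMDiff_circleExp.comp h1)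
  · exact contMDiff_const.mul (contMDiff_circleExp.comp h2)

/-- derivative of `wrap` at `0` -/
noncomputable def P (p : Circle × Circle) : ℝ × ℝ →L[ℝ] E2 :=
  mfderiv 𝓘(ℝ, ℝ × ℝ) II (wrap p) 0

/-- derivative of the inclusion at `p` -/
noncomputable def J (p : Circle × Circle) : E2 →L[ℝ] ℂ × ℂ :=
  mfderiv II 𝓘(ℝ, ℂ × ℂ) incl p

/-- derivative of a self map at `p` -/
noncomputable def D (G : Circle × Circle → Circle × Circle) (p : Circle × Circle) : E2 →L[ℝ] E2 :=
  mfderiv II II G p

lemma hasMFDerivAt_wrap (p : Circle × Circle) :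
    HasMFDerivAt 𝓘(ℝ, ℝ × ℝ) II (wrap p) 0 (P p) :=
  ((contMDiff_wrap p 0).mdifferentiableAt (by simp)).hasMFDerivAt

lemma hasMFDerivAt_incl (p : Circle × Circle) :
    HasMFDerivAt II 𝓘(ℝ, ℂ × ℂ) incl p (J p) :=
  ((contMDiff_incl (m := ω) p).mdifferentiableAt (by simp)).hasMFDerivAt

lemma hasMFDerivAt_D {G : Circle × Circle → Circle × Circle} (hG : ContMDiff II II ω G)
    (p : Circle × Circle) : HasMFDerivAt II II G p (D G p) :=
  ((hG p).mdifferentiableAt (by simp)).hasMFDerivAt

lemma hasMFDerivAt_incl' (p q : Circle × Circle) (h : q = p) :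
    HasMFDerivAt II 𝓘(ℝ, ℂ × ℂ) incl q (J p) := by
  subst h; exact hasMFDerivAt_incl q

lemma hasMFDerivAt_D' {G : Circle × Circle → Circle × Circle} (hG : ContMDiff II II ω G)
    (p q : Circle × Circle) (h : q = p) : HasMFDerivAt II II G q (D G p) := by
  subst h; exact hasMFDerivAt_D hG q

lemma chain0 (p : Circle × Circle) :
    HasFDerivAt (fun x : ℝ × ℝ => incl (wrap p x)) ((J p).comp (P p)) 0 := by
  have h3 := HasMFDerivAt.comp (0 : ℝ × ℝ) (hasMFDerivAt_incl' p _ (wrap_zero p))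
    (hasMFDerivAt_wrap p)
  exact h3.hasFDerivAt

lemma chainG {G : Circle × Circle → Circle × Circle} (hG : ContMDiff II II ω G)
    (p : Circle × Circle) (hp : G p = p) :
    HasFDerivAt (fun x : ℝ × ℝ => incl (G (wrap p x))) ((J p).comp ((D G p).comp (P p))) 0 := by
  have h2 := HasMFDerivAt.comp (0 : ℝ × ℝ) (hasMFDerivAt_D' hG p _ (wrap_zero p))
    (hasMFDerivAt_wrap p)
  have h3 := HasMFDerivAt.comp (0 : ℝ × ℝ) (hasMFDerivAt_incl' p _
    (show (G ∘ wrap p) 0 = p by rw [Function.comp_apply, wrap_zero, hp])) h2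
  exact h3.hasFDerivAt

/-- derivative of the inclusion along the covering map -/
lemma J_P (p : Circle × Circle) (x : ℝ × ℝ) :
    J p (P p x) = ((p.1 : ℂ) * I * x.1, (p.2 : ℂ) * I * x.2) := by
  have h1 : HasDerivAt (fun t : ℝ => incl (wrap p (t • x))) ((J p).comp (P p) x) 0 := by
    have hc : HasDerivAt (fun t : ℝ => t • x) ((1:ℝ) • x) 0 := (hasDerivAt_id (0:ℝ)).smul_const x
    have h0 := chain0 p
    have h0' : HasFDerivAt (fun x : ℝ × ℝ => incl (wrap p x)) ((J p).comp (P p)) ((0:ℝ) • x) := by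
      rw [zero_smul]; exact h0
    have := h0'.comp_hasDerivAt (0:ℝ) hc
    rw [one_smul] at this
    exact this
  have h2 : HasDerivAt (fun t : ℝ => incl (wrap p (t • x)))
      ((p.1 : ℂ) * I * x.1, (p.2 : ℂ) * I * x.2) 0 := by
    have e : (fun t : ℝ => incl (wrap p (t • x))) =
        fun t : ℝ => (rot p.1 (t * x.1), rot p.2 (t * x.2)) := by
      funext t
      simp only [incl, wrap, Circle.coe_mul, Circle.coe_exp, rot, Prod.smul_fst, Prod.smul_snd,
        smul_eq_mul]
    rw [e]
    have h3 : ∀ (z : ℂ) (a : ℝ), HasDerivAt (fun t : ℝ => rot z (t * a)) (z * I * a) 0 := by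
      intro z a
      have h4 : HasDerivAt (rot z) (z * I) ((0:ℝ) * a) := by
        rw [zero_mul]; exact hasDerivAt_rot z
      have h5 := HasDerivAt.scomp (0:ℝ) h4 ((hasDerivAt_id (0:ℝ)).mul_const a)
      refine h5.congr_deriv ?_
      rw [one_mul, Complex.real_smul, mul_comm]
    exact (h3 _ _).prodMk (h3 _ _)
  exact h1.unique h2

lemma P_injective (p : Circle × Circle) : Function.Injective (P p) := by
  intro x y hxy
  have h := congrArg (J p) hxy
  rw [J_P, J_P, Prod.mk.injEq] at h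
  have hI : I ≠ 0 := Complex.I_ne_zero
  ext
  · have := mul_left_cancel₀ (mul_ne_zero p.1.coe_ne_zero hI) h.1
    exact_mod_cast this
  · have := mul_left_cancel₀ (mul_ne_zero p.2.coe_ne_zero hI) h.2
    exact_mod_cast this

lemma P_surjective (p : Circle × Circle) : Function.Surjective (P p) := by
  have h : Module.finrank ℝ (ℝ × ℝ) = Module.finrank ℝ E2 := by
    simp
  have := (LinearMap.injective_iff_surjective_of_finrank_eq_finrank h
    (f := (P p : ℝ × ℝ →ₗ[ℝ] E2))).1 (P_injective p)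
  exact this

lemma J_injective (p : Circle × Circle) : Function.Injective (J p) := by
  intro u v huv
  obtain ⟨x, rfl⟩ := P_surjective p u
  obtain ⟨y, rfl⟩ := P_surjective p v
  rw [J_P, J_P, Prod.mk.injEq] at huv
  have hI : I ≠ 0 := Complex.I_ne_zero
  congr 1
  ext
  · have := mul_left_cancel₀ (mul_ne_zero p.1.coe_ne_zero hI) huv.1
    exact_mod_cast this
  · have := mul_left_cancel₀ (mul_ne_zero p.2.coe_ne_zero hI) huv.2
    exact_mod_cast this

/-- the derivative of `G` at a fixed point is read off from curves -/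
lemma D_P {G : Circle × Circle → Circle × Circle} (hG : ContMDiff II II ω G)
    (p : Circle × Circle) (hp : G p = p) (x y : ℝ × ℝ)
    (h : HasDerivAt (fun t : ℝ => incl (G (wrap p (t • x))))
      ((p.1 : ℂ) * I * y.1, (p.2 : ℂ) * I * y.2) 0) : D G p (P p x) = P p y := by
  apply J_injective p
  rw [J_P p y]
  have h1 : HasDerivAt (fun t : ℝ => incl (G (wrap p (t • x))))
      ((J p).comp ((D G p).comp (P p)) x) 0 := by
    have hc : HasDerivAt (fun t : ℝ => t • x) ((1:ℝ) • x) 0 := (hasDerivAt_id (0:ℝ)).smul_const x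
    have h0' : HasFDerivAt (fun x : ℝ × ℝ => incl (G (wrap p x)))
        ((J p).comp ((D G p).comp (P p))) ((0:ℝ) • x) := by
      rw [zero_smul]; exact chainG hG p hp
    have := h0'.comp_hasDerivAt (0:ℝ) hc
    rw [one_smul] at this
    exact this
  exact h1.unique h

end Pool.Agent.Helper26K1.Het
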